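import Mathlib
import Pool.Agent.U773.DB.Digits

/-! The subspace theorem for several blocks at once: the master lemma. -/

set_option autoImplicit false

open Finset Filter Topology

namespace Pool.Agent.U773.JB

open Pool.Agent.TH419.WI Pool.Agent.N671.OPN Pool.Agent.U773.SF Pool.Agent.U773.WN
  Pool.Agent.U773.RS Pool.Agent.U773.BD Pool.Agent.U773.DB

/-- `subR` for any finite index type -/
theorem subF {ι : Type} [Fintype ι] [Nonempty ι] {S : Finset ℕ} (hS : ∀ p ∈ S, p.Prime)
    (M : ι → ι → ℝ) (halg : ∀ i j, IsAlgebraic ℚ (M i j))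
    (hdet : ∀ v : ι → ℝ, (∀ i, ∑ j, M i j * v j = 0) → v = 0) (c γ : ℝ) (hc : 0 ≤ c)
    (hγ : 0 < γ)
    (N : ℕ → ℝ) (hN : Tendsto N atTop atTop) (D : ℕ → ι → ℕ) (β : ℕ → ι → ℝ)
    (z : ℕ → ι → ℤ)
    (h1 : ∀ t l, SU S (D t l) ∧ (D t l : ℝ) ≤ Real.exp (c * N t))
    (h2 : ∀ t l, 0 < β t l ∧ |Real.log (β t l)| ≤ c * N t)
    (h4 : ∀ t, (∏ l, β t l) * Real.exp (γ * N t) ≤ ∏ l, (D t l : ℝ))
    (h5 : ∀ t, z t ≠ 0)
    (h6 : ∀ t l, |∑ j, M l j * ((D t j : ℝ) * (z t j : ℝ))| ≤ β t l) :
    ∃ y : ι → ℤ, y ≠ 0 ∧ ∃ᶠ t in atTop, ∑ l, y l * ((D t l : ℤ) * z t l) = 0 := by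
  classical
  set e := Fintype.equivFin ι with he
  have hcard : 1 ≤ Fintype.card ι := Fintype.card_pos
  obtain ⟨y, hy, hfr⟩ := subR hcard hS (fun i j => M (e.symm i) (e.symm j))
    (fun i j => halg _ _) (by
      intro v hv
      have h7 := hdet (fun j => v (e j)) (by
        intro i
        have h8 := congrFun hv (e i)
        simp only [Matrix.mulVec, dotProduct, Equiv.symm_apply_apply, Pi.zero_apply] at h8
        rw [← h8, ← Equiv.sum_comp e]
        simp)
      funext k
      have h8 := congrFun h7 (e.symm k)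
      simpa using h8) c γ hc hγ N hN (fun t k => D t (e.symm k)) (fun t k => β t (e.symm k))
    (fun t k => z t (e.symm k)) (Eventually.of_forall fun t k => h1 t _)
    (Eventually.of_forall fun t k => (h2 t _).1) (Eventually.of_forall fun t k => (h2 t _).2)
    (Eventually.of_forall fun t => by
      rw [Equiv.prod_comp e.symm (fun l => β t l), Equiv.prod_comp e.symm (fun l => (D t l : ℝ))]
      exact h4 t)
    (Eventually.of_forall fun t h => by
      apply h5 t
      funext l
      have h8 := congrFun h (e l)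
      simpa using h8)
    (Eventually.of_forall fun t k => by
      rw [Equiv.sum_comp e.symm (fun j => M (e.symm k) j * ((D t j : ℝ) * (z t j : ℝ)))]
      exact h6 t _)
  refine ⟨fun l => y (e l), ?_, hfr.mono fun t ht => ?_⟩
  · intro h0
    apply hy
    funext k
    have h8 := congrFun h0 (e.symm k)
    simpa using h8
  · rw [← ht, ← Equiv.sum_comp e]
    simp

/-- the master lemma: `u_j` units, `D M_i` the multiples of `D` near `∑ x_{ij} u_j - ∑ w_{il} Y_l`,
`Y_l` small integers, the `Y_l` with `g l = true` being multiples of `D`; sizes `β_l` of independent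
linear forms in the `Y_l` with a small product: then the `Y_l` satisfy a rational relation -/
theorem mast {J B κ : Type} [Fintype J] [Fintype B] [Fintype κ] [Nonempty J]
    {S : Finset ℕ}
    (hS : ∀ p ∈ S, p.Prime) (x : B → J → ℝ) (hx : ∀ i j, IsAlgebraic ℚ (x i j))
    (w : B → κ → ℝ) (hw : ∀ i l, IsAlgebraic ℚ (w i l)) (Λ : κ → κ → ℝ)
    (hΛ : ∀ l l', IsAlgebraic ℚ (Λ l l'))
    (hdet : ∀ v : κ → ℝ, (∀ l, ∑ l', Λ l l' * v l' = 0) → v = 0)
    (C ε C0 K1 : ℝ) (hC : 0 ≤ C) (hε : 0 < ε) (hK1 : 1 ≤ K1) (N : ℕ → ℝ)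
    (hN : Tendsto N atTop atTop)
    (hN0 : ∀ t, 1 ≤ N t) (hKN : ∀ t, K1 ≤ Real.exp (C * N t)) (u : ℕ → J → ℕ) (D : ℕ → ℕ) (M : ℕ → B → ℤ) (Y : ℕ → κ → ℤ)
    (g : κ → Bool) (z : ℕ → κ → ℤ)
    (hYz : ∀ t l, Y t l = (if g l then (D t : ℤ) else 1) * z t l)
    (β : ℕ → κ → ℝ)
    (hu : ∀ t j, SU S (u t j) ∧ (u t j : ℝ) ≤ Real.exp (C * N t))
    (hD : ∀ t, SU S (D t) ∧ (D t : ℝ) ≤ Real.exp (C * N t))
    (hφ : ∀ t i, |∑ j, x i j * u t j - D t * M t i - ∑ l, w i l * Y t l| ≤ K1)
    (hY : ∀ t l, |(Y t l : ℝ)| ≤ C0 * D t)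
    (hβ : ∀ t l, 0 < β t l ∧ |Real.log (β t l)| ≤ C * N t)
    (hLY : ∀ t l, |∑ l', Λ l l' * (Y t l' : ℝ)| ≤ β t l)
    (hsm : ∀ t, K1 ^ (Fintype.card B) * (∏ l, β t l) * Real.exp (ε * N t) ≤
      (D t : ℝ) ^ (Fintype.card B) * ∏ l, (if g l then (D t : ℝ) else 1))
    (hG : ∀ (r : J → ℤ) (s : B → ℤ) (K : ℝ),
      (∃ᶠ t in atTop, |∑ j, ((r j : ℝ) + ∑ i, (s i : ℝ) * x i j) * u t j| ≤ K * D t) →
      r = 0 ∧ s = 0) :
    ∃ y : κ → ℤ, y ≠ 0 ∧ ∃ᶠ t in atTop, ∑ l, y l * Y t l = 0 := by
  classical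
  set Mx : (J ⊕ (B ⊕ κ)) → (J ⊕ (B ⊕ κ)) → ℝ := fun a =>
    Sum.elim (fun j => Sum.elim (fun j' => if j' = j then 1 else 0) (fun _ => 0))
      (Sum.elim (fun i => Sum.elim (fun j => x i j) (Sum.elim (fun i' => if i' = i then -1 else 0)
        (fun l => -w i l)))
        (fun l => Sum.elim (fun _ => 0) (Sum.elim (fun _ => 0) (fun l' => Λ l l')))) a with hMx
  have hu1 : ∀ t j, (1 : ℝ) ≤ u t j := fun t j => by exact_mod_cast (hu t j).1.1
  have hD1 : ∀ t, (1 : ℝ) ≤ D t := fun t => by exact_mod_cast (hD t).1.1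
  have hexp0 : ∀ t, (1 : ℝ) ≤ Real.exp (C * N t) := fun t => Real.one_le_exp
    (mul_nonneg hC (by linarith [hN0 t]))
  have hlog : ∀ t (v : ℝ), 1 ≤ v → v ≤ Real.exp (C * N t) → |Real.log v| ≤ C * N t := by
    intro t v h1 h2
    rw [abs_of_nonneg (Real.log_nonneg h1)]
    exact (Real.log_le_iff_le_exp (by linarith)).2 h2
  obtain ⟨y, hy, hfr⟩ := subF hS Mx (by
      intro a a'
      rcases a with j | i | l <;> rcases a' with j' | i' | l' <;> simp only [hMx, Sum.elim_inl,
        Sum.elim_inr]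
      · split_ifs
        · exact isAlgebraic_one
        · exact isAlgebraic_zero
      · exact isAlgebraic_zero
      · exact isAlgebraic_zero
      · exact hx _ _
      · split_ifs
        · exact isAlgebraic_one.neg
        · exact isAlgebraic_zero
      · exact (hw _ _).neg
      · exact isAlgebraic_zero
      · exact isAlgebraic_zero
      · exact hΛ _ _)
    (by
      intro v hv
      have h1 : ∀ j, v (Sum.inl j) = 0 := by
        intro j
        have := hv (Sum.inl j)
        simpa [hMx, Fintype.sum_sum_type] using this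
      have h3 : (fun l => v (Sum.inr (Sum.inr l))) = 0 := by
        apply hdet
        intro l
        have := hv (Sum.inr (Sum.inr l))
        simpa [hMx, Fintype.sum_sum_type] using this
      have h3' : ∀ l, v (Sum.inr (Sum.inr l)) = 0 := fun l => congrFun h3 l
      have h2 : ∀ i, v (Sum.inr (Sum.inl i)) = 0 := by
        intro i
        have := hv (Sum.inr (Sum.inl i))
        simp only [hMx, Fintype.sum_sum_type, Sum.elim_inl, Sum.elim_inr, h1, h3', mul_zero,
          Finset.sum_const_zero, zero_add, add_zero, ite_mul, zero_mul, Finset.sum_ite_eq',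
          Finset.mem_univ, if_true] at this
        linarith
      funext a
      rcases a with j | i | l
      · exact h1 j
      · exact h2 i
      · exact h3' l)
    C ε hC hε N hN
    (fun t => Sum.elim (u t) (Sum.elim (fun _ => D t) (fun l => if g l then D t else 1)))
    (fun t => Sum.elim (fun j => (u t j : ℝ)) (Sum.elim (fun _ => K1) (β t)))
    (fun t => Sum.elim (fun _ => 1) (Sum.elim (M t) (z t)))
    (by
      intro t a
      rcases a with j | i | l
      · exact hu t j
      · exact hD t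
      · simp only [Sum.elim_inr]
        split_ifs
        · exact hD t
        · exact ⟨SU_one S, by rw [Nat.cast_one]; exact hexp0 t⟩)
    (by
      intro t a
      rcases a with j | i | l
      · simp only [Sum.elim_inl]
        exact ⟨by linarith [hu1 t j], hlog t _ (hu1 t j) (hu t j).2⟩
      · simp only [Sum.elim_inl, Sum.elim_inr]
        exact ⟨by linarith, hlog t _ hK1 (hKN t)⟩
      · exact hβ t l)
    (by
      intro t
      simp only [Fintype.prod_sum_type, Sum.elim_inl, Sum.elim_inr,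
        Finset.prod_const, Finset.card_univ]
      have h1 : 0 ≤ ∏ j, (u t j : ℝ) := Finset.prod_nonneg fun _ _ => Nat.cast_nonneg _
      have h2 := mul_le_mul_of_nonneg_left (hsm t) h1
      calc (∏ j, (u t j : ℝ)) * (K1 ^ (Fintype.card B) * ∏ l, β t l) * Real.exp (ε * N t)
          = (∏ j, (u t j : ℝ)) * (K1 ^ (Fintype.card B) * (∏ l, β t l) * Real.exp (ε * N t)) := by
            ring
        _ ≤ _ := h2
        _ = _ := by
            congr 2
            refine Finset.prod_congr rfl fun l _ => ?_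
            split_ifs <;> simp)
    (by
      intro t h0
      obtain ⟨j⟩ := ‹Nonempty J›
      have := congrFun h0 (Sum.inl j)
      simp at this)
    (by
      intro t a
      rcases a with j | i | l
      · simp only [hMx, Fintype.sum_sum_type, Sum.elim_inl, Sum.elim_inr, ite_mul, one_mul, zero_mul,
          Finset.sum_ite_eq', Finset.mem_univ, if_true, Finset.sum_const_zero, add_zero,
          Int.cast_one, mul_one]
        rw [abs_of_nonneg (Nat.cast_nonneg _)]
      · simp only [hMx, Fintype.sum_sum_type, Sum.elim_inl, Sum.elim_inr, ite_mul, zero_mul,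
          Finset.sum_ite_eq', Finset.mem_univ, if_true, Int.cast_one, mul_one]
        refine le_trans (le_of_eq ?_) (hφ t i)
        congr 1
        have h1 : ∑ l, -w i l * ((((if g l then D t else 1 : ℕ)) : ℝ) * (z t l : ℝ)) =
            -∑ l, w i l * Y t l := by
          rw [← Finset.sum_neg_distrib]
          refine Finset.sum_congr rfl fun l _ => ?_
          rw [hYz]
          push_cast
          split_ifs <;> simp
        rw [h1]
        ring
      · simp only [hMx, Fintype.sum_sum_type, Sum.elim_inl, Sum.elim_inr, zero_mul,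
          Finset.sum_const_zero, zero_add]
        refine le_trans (le_of_eq ?_) (hLY t l)
        congr 1
        refine Finset.sum_congr rfl fun l' _ => ?_
        rw [hYz]
        push_cast
        split_ifs <;> simp)
  -- the relation
  set r : J → ℤ := fun j => y (Sum.inl j) with hr
  set s : B → ℤ := fun i => y (Sum.inr (Sum.inl i)) with hs
  set q : κ → ℤ := fun l => y (Sum.inr (Sum.inr l)) with hq
  have hrel : ∃ᶠ t in atTop, ∑ j, r j * (u t j : ℤ) + ∑ i, s i * ((D t : ℤ) * M t i) +
      ∑ l, q l * Y t l = 0 := by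
    refine hfr.mono fun t ht => ?_
    simp only [Fintype.sum_sum_type, Sum.elim_inl, Sum.elim_inr, mul_one] at ht
    rw [← add_assoc] at ht
    rw [← ht]
    congr 1
    refine Finset.sum_congr rfl fun l _ => ?_
    rw [hYz]
    push_cast
    split_ifs <;> simp [hq]
  have hkey : r = 0 ∧ s = 0 := by
    apply hG r s (∑ i, |(s i : ℝ)| * (K1 + ∑ l, |w i l| * C0) + ∑ l, |(q l : ℝ)| * C0)
    refine hrel.mono fun t ht => ?_
    have h1 : ∑ j, (r j : ℝ) * u t j + ∑ i, (s i : ℝ) * ((D t : ℝ) * M t i) +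
        ∑ l, (q l : ℝ) * Y t l = 0 := by exact_mod_cast ht
    have h2 : ∑ j, ((r j : ℝ) + ∑ i, (s i : ℝ) * x i j) * u t j =
        ∑ j, (r j : ℝ) * u t j + ∑ i, (s i : ℝ) * ∑ j, x i j * u t j := by
      simp only [add_mul, Finset.sum_add_distrib]
      congr 1
      simp only [Finset.sum_mul, Finset.mul_sum]
      rw [Finset.sum_comm]
      refine Finset.sum_congr rfl fun i _ => Finset.sum_congr rfl fun j _ => by ring
    have h3 : ∑ j, ((r j : ℝ) + ∑ i, (s i : ℝ) * x i j) * u t j =
        ∑ i, (s i : ℝ) * ((∑ j, x i j * u t j - D t * M t i - ∑ l, w i l * Y t l) +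
          ∑ l, w i l * Y t l) - ∑ l, (q l : ℝ) * Y t l := by
      rw [h2]
      have h4 : ∑ i, (s i : ℝ) * ((∑ j, x i j * u t j - D t * M t i - ∑ l, w i l * Y t l) +
          ∑ l, w i l * Y t l) = ∑ i, (s i : ℝ) * ∑ j, x i j * u t j -
          ∑ i, (s i : ℝ) * ((D t : ℝ) * M t i) := by
        rw [← Finset.sum_sub_distrib]
        exact Finset.sum_congr rfl fun i _ => by ring
      rw [h4]
      linarith
    rw [h3]
    refine (abs_sub _ _).trans ?_
    have hDt := hD1 t
    have hC00 : ∀ l, |(Y t l : ℝ)| ≤ C0 * D t := hY t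
    rw [add_mul, Finset.sum_mul, Finset.sum_mul]
    refine add_le_add ?_ ?_
    · refine (Finset.abs_sum_le_sum_abs _ _).trans (Finset.sum_le_sum fun i _ => ?_)
      rw [abs_mul, mul_assoc]
      refine mul_le_mul_of_nonneg_left ?_ (abs_nonneg _)
      refine (abs_add_le _ _).trans ?_
      rw [add_mul, Finset.sum_mul]
      refine add_le_add ((hφ t i).trans (le_mul_of_one_le_right (by linarith) hDt)) ?_
      refine (Finset.abs_sum_le_sum_abs _ _).trans (Finset.sum_le_sum fun l _ => ?_)
      rw [abs_mul, mul_assoc]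
      exact mul_le_mul_of_nonneg_left (hC00 l) (abs_nonneg _)
    · refine (Finset.abs_sum_le_sum_abs _ _).trans (Finset.sum_le_sum fun l _ => ?_)
      rw [abs_mul, mul_assoc]
      exact mul_le_mul_of_nonneg_left (hC00 l) (abs_nonneg _)
  refine ⟨q, ?_, ?_⟩
  · intro h0
    apply hy
    funext a
    rcases a with j | i | l
    · exact congrFun hkey.1 j
    · exact congrFun hkey.2 i
    · exact congrFun h0 l
  · refine hrel.mono fun t ht => ?_
    rw [hkey.1, hkey.2] at ht
    simpa using ht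

end Pool.Agent.U773.JB
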