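import Mathlib
import Pool.Agent.U773.JB.Mast

/-! Several blocks: independence. -/

set_option autoImplicit false

open Finset Filter Topology

namespace Pool.Agent.U773.JB

open Pool.Agent.TH419.WI Pool.Agent.N671.OPN Pool.Agent.U773.SF Pool.Agent.U773.WN
  Pool.Agent.U773.RS Pool.Agent.U773.BD Pool.Agent.U773.DB

/-- a sequence of families of blocks -/
structure Blk (J B : Type) [Fintype J] [Fintype B] (S : Finset ℕ) (x : B → J → ℝ) (C ε : ℝ) where
  N : ℕ → ℝ
  u : ℕ → J → ℕ
  D : ℕ → ℕ
  M : ℕ → B → ℤ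
  W : ℕ → B → ℤ
  hN : Tendsto N atTop atTop
  hN0 : ∀ t, 1 ≤ N t
  hu : ∀ t j, SU S (u t j) ∧ (u t j : ℝ) ≤ Real.exp (C * N t)
  hD : ∀ t, SU S (D t) ∧ (D t : ℝ) ≤ Real.exp (C * N t)
  hφ : ∀ t i, |∑ j, x i j * u t j - D t * M t i - W t i| ≤ 1
  hW : ∀ t i, |(W t i : ℝ)| ≤ D t
  hDe : ∀ t, Real.exp (ε * N t) ≤ D t
  hG : ∀ (r : J → ℤ) (s : B → ℤ) (K : ℝ),
      (∃ᶠ t in atTop, |∑ j, ((r j : ℝ) + ∑ i, (s i : ℝ) * x i j) * u t j| ≤ K * D t) →
      r = 0 ∧ s = 0

variable {J B : Type} [Fintype J] [Fintype B] [Nonempty J] {S : Finset ℕ}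
  {x : B → J → ℝ} {C ε : ℝ}

/-- a subsequence -/
def Blk.sub (T : Blk J B S x C ε) (ψ : ℕ → ℕ) (hψ : StrictMono ψ) : Blk J B S x C ε where
  N := fun t => T.N (ψ t)
  u := fun t => T.u (ψ t)
  D := fun t => T.D (ψ t)
  M := fun t => T.M (ψ t)
  W := fun t => T.W (ψ t)
  hN := T.hN.comp hψ.tendsto_atTop
  hN0 := fun t => T.hN0 _
  hu := fun t => T.hu _
  hD := fun t => T.hD _
  hφ := fun t => T.hφ _
  hW := fun t => T.hW _
  hDe := fun t => T.hDe _
  hG := fun r s K h => T.hG r s K (by
    exact hψ.tendsto_atTop.frequently h)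

lemma Blk.D1 (T : Blk J B S x C ε) (t : ℕ) : (1 : ℝ) ≤ T.D t := by
  exact_mod_cast (T.hD t).1.1

lemma alg_rat (q : ℚ) : IsAlgebraic ℚ (q : ℝ) := isAlgebraic_algebraMap q

lemma Blk.log1 (T : Blk J B S x C ε) (t : ℕ) {v : ℝ} (h1 : 1 ≤ v)
    (h2 : v ≤ Real.exp (C * T.N t)) : |Real.log v| ≤ C * T.N t := by
  rw [abs_of_nonneg (Real.log_nonneg h1)]
  exact (Real.log_le_iff_le_exp (by linarith)).2 h2

lemma Blk.C0 (T : Blk J B S x C ε) : 0 ≤ C := by
  by_contra h
  push Not at h
  have h1 := (T.hD 0).2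
  have h2 := T.D1 0
  have h3 : Real.exp (C * T.N 0) < 1 := by
    rw [Real.exp_lt_one_iff]
    have := T.hN0 0
    nlinarith
  linarith

/-- the blocks are not affine functions of fewer integers -/
theorem gen (hS : ∀ p ∈ S, p.Prime) (hx : ∀ i j, IsAlgebraic ℚ (x i j)) (hε : 0 < ε) (n : ℕ) :
    ∀ (κ : Type) [Fintype κ], Fintype.card κ = n → n < Fintype.card B →
      ∀ (T : Blk J B S x C ε) (V : ℕ → κ → ℤ) (a0 : B → ℚ) (a : B → κ → ℚ),
      (∀ t l, |(V t l : ℝ)| ≤ T.D t) →
      (∀ t i, (T.W t i : ℝ) = a0 i + ∑ l, (a i l : ℝ) * V t l) → False := by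
  classical
  induction n with
  | zero =>
    intro κ _ hκ hn T V a0 a hV hWV
    have hemp : IsEmpty κ := Fintype.card_eq_zero_iff.1 hκ
    obtain ⟨y, hy, hfr⟩ := mast (κ := Unit) hS x hx (fun i _ => (a0 i : ℝ))
      (fun i _ => alg_rat _) (fun _ _ => 1) (fun _ _ => isAlgebraic_one) (by
        intro v hv
        have := hv ()
        funext l
        simpa using this) C ε 1 1 T.C0 hε le_rfl T.N T.hN T.hN0
      (fun t => Real.one_le_exp (mul_nonneg T.C0 (by linarith [T.hN0 t]))) T.u T.D T.M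
      (fun _ _ => 1) (fun _ => false) (fun _ _ => 1) (by intro t l; simp) (fun _ _ => 1) T.hu T.hD
      (by
        intro t i
        have h1 := T.hφ t i
        rw [hWV t i] at h1
        simpa using h1)
      (by
        intro t l
        have := T.D1 t
        simpa using this)
      (by
        intro t l
        simp only [Real.log_one, abs_zero]
        exact ⟨one_pos, mul_nonneg T.C0 (by linarith [T.hN0 t])⟩)
      (by intro t l; simp)
      (by
        intro t
        simp only [one_pow, Finset.prod_const_one, one_mul, Bool.false_eq_true, if_false, mul_one]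
        refine (T.hDe t).trans ?_
        exact le_self_pow₀ (T.D1 t) (by omega)) T.hG
    obtain ⟨t, ht⟩ := hfr.exists
    apply hy
    funext l
    simpa using ht
  | succ n ih =>
    intro κ _ hκ hn T V a0 a hV hWV
    have hD1 := T.D1
    obtain ⟨y, hy, hfr⟩ := mast (κ := Option κ) hS x hx
      (fun i => fun o => o.elim (a0 i : ℝ) (fun l => (a i l : ℝ)))
      (fun i l => by cases l <;> exact alg_rat _)
      (fun l l' => if l' = l then 1 else 0) (fun l l' => by
        split_ifs
        · exact isAlgebraic_one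
        · exact isAlgebraic_zero) (by
        intro v hv
        funext l
        have := hv l
        simpa using this) C ε 1 1 T.C0 hε le_rfl T.N T.hN T.hN0
      (fun t => Real.one_le_exp (mul_nonneg T.C0 (by linarith [T.hN0 t]))) T.u T.D T.M
      (fun t o => o.elim 1 (V t)) (fun _ => false) (fun t o => o.elim 1 (V t))
      (by intro t l; simp)
      (fun t o => o.elim 1 (fun _ => (T.D t : ℝ))) T.hu T.hD
      (by
        intro t i
        have h1 := T.hφ t i
        rw [hWV t i] at h1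
        rw [Fintype.sum_option]
        simpa using h1)
      (by
        intro t l
        rcases l with _ | l
        · simpa using hD1 t
        · simpa using hV t l)
      (by
        intro t l
        rcases l with _ | l
        · simp only [Option.elim_none, Real.log_one, abs_zero]
          exact ⟨one_pos, mul_nonneg T.C0 (by linarith [T.hN0 t])⟩
        · simp only [Option.elim_some]
          exact ⟨by linarith [hD1 t], T.log1 t (hD1 t) (T.hD t).2⟩)
      (by
        intro t l
        simp only [ite_mul, one_mul, zero_mul, Finset.sum_ite_eq', Finset.mem_univ, if_true]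
        rcases l with _ | l
        · simp
        · simpa using hV t l)
      (by
        intro t
        rw [Fintype.prod_option]
        simp only [one_pow, one_mul, Option.elim_none, Option.elim_some, Finset.prod_const,
          Finset.card_univ, Bool.false_eq_true, if_false, one_pow, mul_one, hκ]
        calc (T.D t : ℝ) ^ (n + 1) * Real.exp (ε * T.N t) ≤ (T.D t : ℝ) ^ (n + 1) * T.D t :=
              mul_le_mul_of_nonneg_left (T.hDe t) (by positivity)
          _ = (T.D t : ℝ) ^ (n + 2) := by ring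
          _ ≤ _ := pow_le_pow_right₀ (hD1 t) (by omega)) T.hG
    have hfr' : ∃ᶠ t in atTop, y none + ∑ l, y (some l) * V t l = 0 := by
      refine hfr.mono fun t ht => ?_
      rw [Fintype.sum_option] at ht
      simpa using ht
    obtain ⟨l0, hl0⟩ : ∃ l, y (some l) ≠ 0 := by
      by_contra hcon
      push Not at hcon
      obtain ⟨t, ht⟩ := hfr'.exists
      simp only [hcon, zero_mul, Finset.sum_const_zero, add_zero] at ht
      apply hy
      funext l
      rcases l with _ | l
      · exact ht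
      · exact hcon l
    have hl0R : ((y (some l0) : ℤ) : ℝ) ≠ 0 := by exact_mod_cast hl0
    obtain ⟨ψ, hψ, hrel⟩ := Filter.extraction_of_frequently_atTop hfr'
    refine ih {l : κ // l ≠ l0} (by
      rw [Fintype.card_subtype_compl, Fintype.card_subtype_eq, hκ]
      omega) (by omega) (T.sub ψ hψ) (fun t l => V (ψ t) l)
      (fun i => a0 i - a i l0 * ((y none : ℚ) / (y (some l0) : ℚ)))
      (fun i l => a i l - a i l0 * ((y (some (l : κ)) : ℚ) / (y (some l0) : ℚ)))
      (fun t l => hV _ _) ?_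
    intro t i
    have h1 := hWV (ψ t) i
    have h2 : (y none : ℝ) + ∑ l, (y (some l) : ℝ) * V (ψ t) l = 0 := by exact_mod_cast hrel t
    rw [Fintype.sum_eq_add_sum_subtype_ne _ l0] at h1 h2
    show (T.W (ψ t) i : ℝ) = _
    rw [h1]
    push_cast
    have h3 : ∑ l : {l : κ // l ≠ l0}, ((a i l : ℝ) - a i l0 * ((y (some (l : κ)) : ℝ) /
        (y (some l0) : ℝ))) * V (ψ t) l = ∑ l : {l : κ // l ≠ l0}, (a i l : ℝ) * V (ψ t) l -
        a i l0 / (y (some l0) : ℝ) *
          ∑ l : {l : κ // l ≠ l0}, (y (some (l : κ)) : ℝ) * V (ψ t) l := by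
      rw [Finset.mul_sum, ← Finset.sum_sub_distrib]
      exact Finset.sum_congr rfl fun l _ => by ring
    rw [h3]
    have h4 : ∑ l : {l : κ // l ≠ l0}, (y (some (l : κ)) : ℝ) * V (ψ t) l =
        -((y none : ℝ) + (y (some l0) : ℝ) * V (ψ t) l0) := by linarith
    rw [h4]
    field_simp
    ring

/-- no rational relation between the blocks -/
theorem norel (hS : ∀ p ∈ S, p.Prime) (hx : ∀ i j, IsAlgebraic ℚ (x i j)) (hε : 0 < ε)
    (T : Blk J B S x C ε) (c0 : ℤ) (c : B → ℤ) (hc : c0 ≠ 0 ∨ c ≠ 0) :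
    ∀ᶠ t in atTop, c0 + ∑ i, c i * T.W t i ≠ 0 := by
  classical
  by_contra hcon
  have hfr : ∃ᶠ t in atTop, c0 + ∑ i, c i * T.W t i = 0 := by
    rw [Filter.Frequently]
    intro h
    exact hcon (h.mono fun t ht => ht)
  obtain ⟨i0, hi0⟩ : ∃ i, c i ≠ 0 := by
    by_contra h
    push Not at h
    obtain ⟨t, ht⟩ := hfr.exists
    simp only [h, zero_mul, Finset.sum_const_zero, add_zero] at ht
    rcases hc with h1 | h1
    · exact h1 ht
    · exact h1 (funext h)
  have hi0R : ((c i0 : ℤ) : ℝ) ≠ 0 := by exact_mod_cast hi0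
  obtain ⟨ψ, hψ, hrel⟩ := Filter.extraction_of_frequently_atTop hfr
  have hcard : 0 < Fintype.card B := Fintype.card_pos_iff.2 ⟨i0⟩
  refine gen hS hx hε (Fintype.card B - 1) {i : B // i ≠ i0} (by
      rw [Fintype.card_subtype_compl, Fintype.card_subtype_eq]) (by omega)
    (T.sub ψ hψ) (fun t l => T.W (ψ t) l)
    (fun i => if i = i0 then -((c0 : ℚ) / (c i0 : ℚ)) else 0)
    (fun i l => if i = i0 then -((c (l : B) : ℚ) / (c i0 : ℚ)) else if (l : B) = i then 1 else 0)
    (fun t l => T.hW _ _) ?_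
  intro t i
  show (T.W (ψ t) i : ℝ) = _
  by_cases hi : i = i0
  · subst hi
    simp only [if_true]
    have h2 : (c0 : ℝ) + ∑ l, (c l : ℝ) * T.W (ψ t) l = 0 := by exact_mod_cast hrel t
    rw [Fintype.sum_eq_add_sum_subtype_ne _ i] at h2
    have h3 : ∑ l : {l : B // l ≠ i}, ((-((c (l : B) : ℚ) / (c i : ℚ)) : ℚ) : ℝ) * T.W (ψ t) l =
        -(1 / (c i : ℝ)) * ∑ l : {l : B // l ≠ i}, (c l : ℝ) * T.W (ψ t) l := by
      rw [Finset.mul_sum]
      refine Finset.sum_congr rfl fun l _ => ?_
      push_cast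
      ring
    rw [h3]
    have h4 : ∑ l : {l : B // l ≠ i}, (c l : ℝ) * T.W (ψ t) l =
        -((c0 : ℝ) + (c i : ℝ) * T.W (ψ t) i) := by linarith
    rw [h4]
    push_cast
    field_simp
    ring
  · simp only [if_neg hi]
    have h3 : ∑ l : {l : B // l ≠ i0}, (((if (l : B) = i then 1 else 0 : ℚ)) : ℝ) *
        T.W (ψ t) l = T.W (ψ t) i := by
      rw [Finset.sum_eq_single (⟨i, hi⟩ : {l : B // l ≠ i0})]
      · simp
      · intro l _ hl
        have : (l : B) ≠ i := fun h => hl (Subtype.ext h)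
        simp [this]
      · intro h
        exact absurd (Finset.mem_univ _) h
    rw [h3]
    simp

end Pool.Agent.U773.JB
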