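import Mathlib
import Pool.Agent.U773.JB.Joint

/-! Several blocks: linear forms. -/

set_option autoImplicit false

open Finset Filter Topology

namespace Pool.Agent.U773.JB

open Pool.Agent.TH419.WI Pool.Agent.N671.OPN Pool.Agent.U773.SF Pool.Agent.U773.WN
  Pool.Agent.U773.RS Pool.Agent.U773.BD Pool.Agent.U773.DB

variable {J B : Type} [Fintype J] [Fintype B] [Nonempty J] {S : Finset ℕ}
  {x : B → J → ℝ} {C ε : ℝ}

/-- a linear form in the blocks is not small -/
theorem form (hS : ∀ p ∈ S, p.Prime) (hx : ∀ i j, IsAlgebraic ℚ (x i j)) (hε : 0 < ε)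
    (T : Blk J B S x C ε) (α : B → ℝ) (hα : ∀ i, IsAlgebraic ℚ (α i)) (hα0 : α ≠ 0) (γ : ℝ)
    (hγ : IsAlgebraic ℚ γ) (E : ℕ → ℝ) (hE1 : ∀ t, 1 ≤ E t)
    (hE : ∀ t, |∑ i, α i * T.W t i - γ| ≤ E t)
    (hsm : ∀ t, E t * Real.exp (ε * T.N t) ≤ T.D t) : False := by
  classical
  obtain ⟨i0, hi0⟩ : ∃ i, α i ≠ 0 := by
    by_contra h
    push Not at h
    exact hα0 (funext h)
  have hD1 := T.D1
  have hexp1 : ∀ t, 1 ≤ Real.exp (ε * T.N t) := fun t => Real.one_le_exp
    (mul_nonneg hε.le (by linarith [T.hN0 t]))
  have hED : ∀ t, E t ≤ T.D t := fun t =>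
    (le_mul_of_one_le_right (by linarith [hE1 t]) (hexp1 t)).trans (hsm t)
  obtain ⟨y, hy, hfr⟩ := mast (κ := Option B) hS x hx
    (fun i => fun o => o.elim 0 (fun i' => if i' = i then 1 else 0))
    (fun i l => by
      rcases l with _ | l
      · exact isAlgebraic_zero
      · simp only [Option.elim_some]
        split_ifs
        · exact isAlgebraic_one
        · exact isAlgebraic_zero)
    (fun l l' => l.elim (l'.elim 1 (fun _ => 0)) (fun i => if i = i0 then l'.elim (-γ) α
      else l'.elim 0 (fun i' => if i' = i then 1 else 0)))
    (fun l l' => by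
      rcases l with _ | l <;> rcases l' with _ | l' <;> simp only [Option.elim_none,
        Option.elim_some]
      · exact isAlgebraic_one
      · exact isAlgebraic_zero
      · split_ifs
        · exact hγ.neg
        · exact isAlgebraic_zero
      · split_ifs
        · exact hα _
        · exact isAlgebraic_one
        · exact isAlgebraic_zero) (by
      intro v hv
      have h0 : v none = 0 := by
        have := hv none
        rw [Fintype.sum_option] at this
        simpa using this
      have h1 : ∀ i, i ≠ i0 → v (some i) = 0 := by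
        intro i hi
        have := hv (some i)
        rw [Fintype.sum_option] at this
        simpa [hi] using this
      have h2 : v (some i0) = 0 := by
        have h3 := hv (some i0)
        rw [Fintype.sum_option] at h3
        simp only [Option.elim_some, Option.elim_none, if_true, h0, mul_zero, zero_add] at h3
        rw [Finset.sum_eq_single i0 (fun i _ hi => by rw [h1 i hi, mul_zero])
          (fun h => absurd (Finset.mem_univ _) h)] at h3
        exact (mul_eq_zero.1 h3).resolve_left hi0
      funext l
      rcases l with _ | l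
      · exact h0
      · by_cases hl : l = i0
        · rw [hl]
          exact h2
        · exact h1 l hl) C ε 1 1 T.C0 hε le_rfl T.N T.hN T.hN0
    (fun t => Real.one_le_exp (mul_nonneg T.C0 (by linarith [T.hN0 t]))) T.u T.D T.M
    (fun t o => o.elim 1 (T.W t)) (fun _ => false) (fun t o => o.elim 1 (T.W t))
    (by intro t l; simp)
    (fun t o => o.elim 1 (fun i => if i = i0 then E t else (T.D t : ℝ))) T.hu T.hD
    (by
      intro t i
      have h1 := T.hφ t i
      rw [Fintype.sum_option]
      simpa using h1)
    (by
      intro t l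
      rcases l with _ | l
      · simpa using hD1 t
      · simpa using T.hW t l)
    (by
      intro t l
      rcases l with _ | l
      · simp only [Option.elim_none, Real.log_one, abs_zero]
        exact ⟨one_pos, mul_nonneg T.C0 (by linarith [T.hN0 t])⟩
      · simp only [Option.elim_some]
        split_ifs
        · exact ⟨by linarith [hE1 t], T.log1 t (hE1 t) ((hED t).trans (T.hD t).2)⟩
        · exact ⟨by linarith [hD1 t], T.log1 t (hD1 t) (T.hD t).2⟩)
    (by
      intro t l
      rw [Fintype.sum_option]
      rcases l with _ | l
      · simp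
      · by_cases hl : l = i0
        · subst hl
          simp only [Option.elim_some, Option.elim_none, if_true, Int.cast_one, mul_one]
          refine le_trans (le_of_eq ?_) (hE t)
          congr 1
          ring
        · simpa [hl] using T.hW t l)
    (by
      intro t
      rw [Fintype.prod_option]
      simp only [one_pow, one_mul, Option.elim_none, Option.elim_some,
        Bool.false_eq_true, if_false, Finset.prod_const_one, mul_one]
      rw [← Finset.mul_prod_erase univ _ (Finset.mem_univ i0)]
      simp only [if_true]
      have h1 : ∏ i ∈ univ.erase i0, (if i = i0 then E t else (T.D t : ℝ)) =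
          (T.D t : ℝ) ^ (Fintype.card B - 1) := by
        rw [Finset.prod_congr rfl (fun i hi => if_neg (Finset.ne_of_mem_erase hi)),
          Finset.prod_const, Finset.card_erase_of_mem (Finset.mem_univ _), Finset.card_univ]
      rw [h1]
      have hc : 0 < Fintype.card B := Fintype.card_pos_iff.2 ⟨i0⟩
      calc E t * (T.D t : ℝ) ^ (Fintype.card B - 1) * Real.exp (ε * T.N t)
          = (E t * Real.exp (ε * T.N t)) * (T.D t : ℝ) ^ (Fintype.card B - 1) := by ring
        _ ≤ T.D t * (T.D t : ℝ) ^ (Fintype.card B - 1) :=
            mul_le_mul_of_nonneg_right (hsm t) (by positivity)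
        _ = (T.D t : ℝ) ^ (Fintype.card B) := by
            rw [← pow_succ']
            congr 1
            omega) T.hG
  have hfr' : ∃ᶠ t in atTop, y none + ∑ i, y (some i) * T.W t i = 0 := by
    refine hfr.mono fun t ht => ?_
    rw [Fintype.sum_option] at ht
    simpa using ht
  have hne : y none ≠ 0 ∨ (fun i => y (some i)) ≠ 0 := by
    by_contra h
    push Not at h
    apply hy
    funext l
    rcases l with _ | l
    · exact h.1
    · exact congrFun h.2 l
  obtain ⟨t, ht1, ht2⟩ := (hfr'.and_eventually (norel hS hx hε T _ _ hne)).exists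
  exact ht2 ht1

/-- Ridout's theorem for the combinations of the numbers themselves -/
theorem ridout (hS : ∀ p ∈ S, p.Prime) (hx : ∀ i j, IsAlgebraic ℚ (x i j)) (hε : 0 < ε)
    (T : Blk J B S x C ε) (s : B → ℤ) (hs : s ≠ 0) (M' : ℕ → ℤ) (K : ℝ)
    (hK : ∀ t, |∑ j, (∑ i, (s i : ℝ) * x i j) * T.u t j - T.D t * M' t| ≤ K) : False := by
  classical
  have hN0 := T.hN0
  have hCN : ∀ t, T.N t ≤ T.N t := fun t => le_rfl
  set K1 : ℝ := max K 1 with hK1
  have h1K : 1 ≤ K1 := le_max_right _ _
  have hC := T.C0
  -- `C > 0`
  have hCp : 0 < C := by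
    rcases hC.lt_or_eq with h | h
    · exact h
    · exfalso
      have h1 := (T.hDe 0).trans (T.hD 0).2
      have h2 := Real.exp_le_exp.1 h1
      have h3 : C * T.N 0 = 0 := mul_eq_zero_of_left h.symm _
      have h4 := T.hN0 0
      nlinarith
  obtain ⟨U, hU⟩ := eventually_atTop.1
    (((Real.tendsto_exp_atTop.comp (T.hN.const_mul_atTop hCp)).eventually_ge_atTop K1).and
      ((Real.tendsto_exp_atTop.comp (T.hN.const_mul_atTop (half_pos hε))).eventually_ge_atTop K1))
  have hψ : StrictMono (fun t : ℕ => t + U) := fun a b h => by
    show a + U < b + U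
    omega
  obtain ⟨y, hy, hfr⟩ := mast (B := Unit) (κ := Empty) hS (fun _ j => ∑ i, (s i : ℝ) * x i j)
    (fun _ j => by
      have : ∀ F : Finset B, IsAlgebraic ℚ (∑ i ∈ F, (s i : ℝ) * x i j) := by
        intro F
        induction F using Finset.induction_on with
        | empty =>
          rw [Finset.sum_empty]
          exact isAlgebraic_zero
        | insert a F ha ih =>
          rw [Finset.sum_insert ha]
          exact ((isAlgebraic_intCast _).mul (hx _ _)).add ih
      exact this _)
    (fun _ l => l.elim) (fun _ l => l.elim) (fun l => l.elim) (fun l => l.elim)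
    (fun v _ => funext fun l => l.elim) C (ε / 2) 1 K1 hC (half_pos hε) h1K
    (fun t => T.N (t + U)) (T.hN.comp hψ.tendsto_atTop) (fun t => T.hN0 _)
    (fun t => (hU (t + U) (by omega)).1)
    (fun t => T.u (t + U)) (fun t => T.D (t + U)) (fun t _ => M' (t + U)) (fun _ l => l.elim)
    (fun l => l.elim) (fun _ l => l.elim) (fun _ l => l.elim) (fun _ l => l.elim)
    (fun t => T.hu _) (fun t => T.hD _)
    (by
      intro t i
      simp only [Finset.univ_eq_empty, Finset.sum_empty, sub_zero]
      exact (hK _).trans (le_max_left _ _))
    (fun _ l => l.elim) (fun _ l => l.elim) (fun _ l => l.elim)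
    (by
      intro t
      simp only [Finset.univ_eq_empty, Finset.prod_empty, mul_one, Fintype.card_unit, pow_one]
      have h1 := (hU (t + U) (by omega)).2
      simp only [Function.comp] at h1
      refine le_trans ?_ (T.hDe _)
      have h2 : Real.exp (ε * T.N (t + U)) = Real.exp (ε / 2 * T.N (t + U)) *
          Real.exp (ε / 2 * T.N (t + U)) := by
        rw [← Real.exp_add]
        congr 1
        ring
      rw [h2]
      exact mul_le_mul_of_nonneg_right h1 (Real.exp_pos _).le)
    (by
      intro r s' K' h
      have h1 := T.hG r (fun i => s' () * s i) K' (by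
        refine hψ.tendsto_atTop.frequently (h.mono fun t ht => ?_)
        refine le_trans (le_of_eq ?_) ht
        congr 1
        refine Finset.sum_congr rfl fun j _ => ?_
        congr 2
        simp only [Finset.univ_unique, Finset.sum_singleton]
        rw [Finset.mul_sum]
        refine Finset.sum_congr rfl fun i _ => ?_
        push_cast
        show (s' () : ℝ) * (s i : ℝ) * x i j = (s' default : ℝ) * ((s i : ℝ) * x i j)
        ring)
      refine ⟨h1.1, ?_⟩
      obtain ⟨i, hi⟩ : ∃ i, s i ≠ 0 := by
        by_contra h
        push Not at h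
        exact hs (funext h)
      funext l
      have h2 := congrFun h1.2 i
      exact (mul_eq_zero.1 h2).resolve_right hi)
  exact hy (funext fun l => l.elim)

end Pool.Agent.U773.JB
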