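import Mathlib
import Pool.Agent.U773.JB.Forms

/-! Several blocks: forms modulo `D` and modulo one. -/

set_option autoImplicit false

open Finset Filter Topology

namespace Pool.Agent.U773.JB

open Pool.Agent.TH419.WI Pool.Agent.N671.OPN Pool.Agent.U773.SF Pool.Agent.U773.WN
  Pool.Agent.U773.RS Pool.Agent.U773.BD Pool.Agent.U773.DB

variable {J B : Type} [Fintype J] [Fintype B] [Nonempty J] {S : Finset ℕ}
  {x : B → J → ℝ} {C ε : ℝ}

/-- a linear form in the blocks is not near a multiple of `D` -/
theorem formD (hS : ∀ p ∈ S, p.Prime) (hx : ∀ i j, IsAlgebraic ℚ (x i j)) (hε : 0 < ε)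
    (T : Blk J B S x C ε) (α : B → ℝ) (hα : ∀ i, IsAlgebraic ℚ (α i)) (hα0 : α ≠ 0) (γ : ℝ)
    (hγ : IsAlgebraic ℚ γ) (M' : ℕ → ℤ) (E : ℕ → ℝ) (hE1 : ∀ t, 1 ≤ E t)
    (hE : ∀ t, |∑ i, α i * T.W t i - γ - T.D t * M' t| ≤ E t)
    (hsm : ∀ t, E t * Real.exp (ε * T.N t) ≤ T.D t) : False := by
  classical
  have hD1 := T.D1
  have hexp1 : ∀ t, 1 ≤ Real.exp (ε * T.N t) := fun t => Real.one_le_exp
    (mul_nonneg hε.le (by linarith [T.hN0 t]))
  have hED : ∀ t, E t ≤ T.D t := fun t =>
    (le_mul_of_one_le_right (by linarith [hE1 t]) (hexp1 t)).trans (hsm t)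
  have hsumW : ∀ t, |∑ i, α i * (T.W t i : ℝ)| ≤ (∑ i, |α i|) * T.D t := by
    intro t
    rw [Finset.sum_mul]
    refine (Finset.abs_sum_le_sum_abs _ _).trans (Finset.sum_le_sum fun i _ => ?_)
    rw [abs_mul]
    exact mul_le_mul_of_nonneg_left (T.hW t i) (abs_nonneg _)
  have hDM : ∀ t, |((T.D t : ℝ) * M' t)| ≤ (∑ i, |α i| + |γ| + 1) * T.D t := by
    intro t
    have e1 : (T.D t : ℝ) * M' t = (∑ i, α i * (T.W t i : ℝ)) - γ -
        (∑ i, α i * T.W t i - γ - T.D t * M' t) := by ring
    rw [e1]
    have e2 := abs_sub (∑ i, α i * (T.W t i : ℝ) - γ) (∑ i, α i * T.W t i - γ - T.D t * M' t)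
    have e3 := abs_sub (∑ i, α i * (T.W t i : ℝ)) γ
    have e4 := hE t
    have e5 : |γ| ≤ |γ| * T.D t := le_mul_of_one_le_right (abs_nonneg _) (hD1 t)
    have e6 := hED t
    have e7 := hsumW t
    rw [add_mul, add_mul, one_mul]
    linarith
  obtain ⟨y, hy, hfr⟩ := mast (κ := Option (Option B)) hS x hx
    (fun i => fun o => o.elim 0 (fun o' => o'.elim 0 (fun i' => if i' = i then 1 else 0)))
    (fun i l => by
      rcases l with _ | _ | l
      · exact isAlgebraic_zero
      · exact isAlgebraic_zero
      · simp only [Option.elim_some]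
        split_ifs
        · exact isAlgebraic_one
        · exact isAlgebraic_zero)
    (fun l l' => l.elim (l'.elim (-1) (fun o => o.elim (-γ) α))
      (fun a => l'.elim 0 (fun a' => if a' = a then 1 else 0)))
    (fun l l' => by
      rcases l with _ | l
      · rcases l' with _ | _ | l'
        · exact isAlgebraic_one.neg
        · exact hγ.neg
        · exact hα l'
      · rcases l' with _ | l'
        · exact isAlgebraic_zero
        · simp only [Option.elim_some]
          split_ifs
          · exact isAlgebraic_one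
          · exact isAlgebraic_zero) (by
      intro v hv
      have h1 : ∀ a, v (some a) = 0 := by
        intro a
        have := hv (some a)
        rw [Fintype.sum_option] at this
        simpa using this
      have h0 : v none = 0 := by
        have := hv none
        rw [Fintype.sum_option] at this
        simpa [h1] using this
      funext l
      rcases l with _ | l
      · exact h0
      · exact h1 l) C ε (∑ i, |α i| + |γ| + 1) 1 T.C0 hε le_rfl T.N T.hN T.hN0
    (fun t => Real.one_le_exp (mul_nonneg T.C0 (by linarith [T.hN0 t]))) T.u T.D T.M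
    (fun t o => o.elim ((T.D t : ℤ) * M' t) (fun o' => o'.elim 1 (T.W t)))
    (fun o => o.elim true (fun _ => false))
    (fun t o => o.elim (M' t) (fun o' => o'.elim 1 (T.W t)))
    (by
      intro t l
      rcases l with _ | l <;> simp)
    (fun t o => o.elim (E t) (fun o' => o'.elim 1 (fun _ => (T.D t : ℝ)))) T.hu T.hD
    (by
      intro t i
      have h1 := T.hφ t i
      rw [Fintype.sum_option, Fintype.sum_option]
      simpa using h1)
    (by
      intro t l
      have hA : 0 ≤ ∑ i, |α i| := Finset.sum_nonneg fun _ _ => abs_nonneg _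
      have hγ0 := abs_nonneg γ
      have hDt := hD1 t
      rcases l with _ | _ | l
      · simpa using hDM t
      · simp only [Option.elim_some, Option.elim_none, Int.cast_one, abs_one]
        nlinarith
      · simp only [Option.elim_some]
        refine (T.hW t l).trans ?_
        nlinarith)
    (by
      intro t l
      rcases l with _ | _ | l
      · simp only [Option.elim_none]
        exact ⟨by linarith [hE1 t], T.log1 t (hE1 t) ((hED t).trans (T.hD t).2)⟩
      · simp only [Option.elim_some, Option.elim_none, Real.log_one, abs_zero]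
        exact ⟨one_pos, mul_nonneg T.C0 (by linarith [T.hN0 t])⟩
      · simp only [Option.elim_some]
        exact ⟨by linarith [hD1 t], T.log1 t (hD1 t) (T.hD t).2⟩)
    (by
      intro t l
      rw [Fintype.sum_option]
      rcases l with _ | l
      · rw [Fintype.sum_option]
        simp only [Option.elim_some, Option.elim_none, Int.cast_one, mul_one]
        refine le_trans (le_of_eq ?_) (hE t)
        congr 1
        push_cast
        ring
      · rcases l with _ | l
        · simp
        · simpa using T.hW t l)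
    (by
      intro t
      rw [Fintype.prod_option, Fintype.prod_option, Fintype.prod_option]
      simp only [one_pow, one_mul, Option.elim_none, Option.elim_some,
        Bool.false_eq_true, if_false, if_true, Finset.prod_const_one, mul_one, Finset.prod_const,
        Finset.card_univ]
      calc E t * (T.D t : ℝ) ^ (Fintype.card B) * Real.exp (ε * T.N t)
          = (E t * Real.exp (ε * T.N t)) * (T.D t : ℝ) ^ (Fintype.card B) := by ring
        _ ≤ T.D t * (T.D t : ℝ) ^ (Fintype.card B) :=
            mul_le_mul_of_nonneg_right (hsm t) (by positivity)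
        _ = (T.D t : ℝ) ^ (Fintype.card B) * T.D t := by ring) T.hG
  have hfr' : ∃ᶠ t in atTop, y none * ((T.D t : ℤ) * M' t) + (y (some none) +
      ∑ i, y (some (some i)) * T.W t i) = 0 := by
    refine hfr.mono fun t ht => ?_
    rw [Fintype.sum_option, Fintype.sum_option] at ht
    simpa using ht
  by_cases hy0 : y none = 0
  · have hne : y (some none) ≠ 0 ∨ (fun i => y (some (some i))) ≠ 0 := by
      by_contra h
      push Not at h
      apply hy
      funext l
      rcases l with _ | _ | l
      · exact hy0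
      · exact h.1
      · exact congrFun h.2 l
    obtain ⟨t, ht1, ht2⟩ := (hfr'.and_eventually (norel hS hx hε T _ _ hne)).exists
    rw [hy0, zero_mul, zero_add] at ht1
    exact ht2 ht1
  have hy0R : ((y none : ℤ) : ℝ) ≠ 0 := by exact_mod_cast hy0
  obtain ⟨ψ, hψ, hrel⟩ := Filter.extraction_of_frequently_atTop hfr'
  have hrelR : ∀ t, (y none : ℝ) * ((T.D (ψ t) : ℝ) * M' (ψ t)) + ((y (some none) : ℝ) +
      ∑ i, (y (some (some i)) : ℝ) * T.W (ψ t) i) = 0 := fun t => by exact_mod_cast hrel t
  set α' : B → ℝ := fun i => α i + (y (some (some i)) : ℝ) / (y none : ℝ) with hα'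
  by_cases hα'0 : α' = 0
  · -- rational coefficients
    have hs : (fun i => y (some (some i))) ≠ 0 := by
      intro h
      apply hα0
      funext i
      have h1 := congrFun hα'0 i
      have h2 := congrFun h i
      simp only [hα', Pi.zero_apply] at h1 h2 ⊢
      rw [h2] at h1
      simpa using h1
    refine ridout hS hx hε (T.sub ψ hψ) _ hs
      (fun t => ∑ i, y (some (some i)) * T.M (ψ t) i - y none * M' (ψ t))
      (|(y (some none) : ℝ)| + ∑ i, |(y (some (some i)) : ℝ)|) ?_
    intro t
    show |∑ j, (∑ i, (y (some (some i)) : ℝ) * x i j) * T.u (ψ t) j - T.D (ψ t) *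
      ((∑ i, y (some (some i)) * T.M (ψ t) i - y none * M' (ψ t) : ℤ) : ℝ)| ≤ _
    have e1 : ∑ j, (∑ i, (y (some (some i)) : ℝ) * x i j) * T.u (ψ t) j =
        ∑ i, (y (some (some i)) : ℝ) * ∑ j, x i j * T.u (ψ t) j := by
      simp only [Finset.sum_mul, Finset.mul_sum]
      rw [Finset.sum_comm]
      exact Finset.sum_congr rfl fun i _ => Finset.sum_congr rfl fun j _ => by ring
    have e2 : ∑ j, (∑ i, (y (some (some i)) : ℝ) * x i j) * T.u (ψ t) j - T.D (ψ t) *
        ((∑ i, y (some (some i)) * T.M (ψ t) i - y none * M' (ψ t) : ℤ) : ℝ) =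
        -(y (some none) : ℝ) + ∑ i, (y (some (some i)) : ℝ) *
          (∑ j, x i j * T.u (ψ t) j - T.D (ψ t) * T.M (ψ t) i - T.W (ψ t) i) := by
      rw [e1]
      have e3 : ∑ i, (y (some (some i)) : ℝ) *
          (∑ j, x i j * T.u (ψ t) j - T.D (ψ t) * T.M (ψ t) i - T.W (ψ t) i) =
          ∑ i, (y (some (some i)) : ℝ) * ∑ j, x i j * T.u (ψ t) j -
          T.D (ψ t) * ∑ i, (y (some (some i)) : ℝ) * T.M (ψ t) i -
          ∑ i, (y (some (some i)) : ℝ) * T.W (ψ t) i := by
        rw [Finset.mul_sum, ← Finset.sum_sub_distrib, ← Finset.sum_sub_distrib]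
        exact Finset.sum_congr rfl fun i _ => by ring
      rw [e3]
      push_cast
      linear_combination (hrelR t)
    rw [e2]
    refine (abs_add_le _ _).trans (add_le_add (by rw [abs_neg]) ?_)
    refine (Finset.abs_sum_le_sum_abs _ _).trans (Finset.sum_le_sum fun i _ => ?_)
    rw [abs_mul]
    exact mul_le_of_le_one_right (abs_nonneg _) (T.hφ (ψ t) i)
  · refine form hS hx hε (T.sub ψ hψ) α' (fun i => (hα i).add (by
      have : (y (some (some i)) : ℝ) / (y none : ℝ) =
          (((y (some (some i)) : ℚ) / (y none : ℚ) : ℚ) : ℝ) := by push_cast; rfl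
      rw [this]
      exact alg_rat _)) hα'0 (γ - (y (some none) : ℝ) / (y none : ℝ)) (hγ.sub (by
      have : (y (some none) : ℝ) / (y none : ℝ) =
          (((y (some none) : ℚ) / (y none : ℚ) : ℚ) : ℝ) := by push_cast; rfl
      rw [this]
      exact alg_rat _)) (fun t => E (ψ t)) (fun t => hE1 _) ?_ (fun t => hsm _)
    intro t
    show |∑ i, α' i * (T.W (ψ t) i : ℝ) - (γ - (y (some none) : ℝ) / (y none : ℝ))| ≤ E (ψ t)
    refine le_trans (le_of_eq ?_) (hE (ψ t))
    congr 1
    have e1 : ∑ i, α' i * (T.W (ψ t) i : ℝ) = ∑ i, α i * (T.W (ψ t) i : ℝ) +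
        (∑ i, (y (some (some i)) : ℝ) * T.W (ψ t) i) / (y none : ℝ) := by
      rw [Finset.sum_div, ← Finset.sum_add_distrib]
      refine Finset.sum_congr rfl fun i _ => ?_
      simp only [hα']
      ring
    have e2 : ∑ i, (y (some (some i)) : ℝ) * T.W (ψ t) i =
        -((y none : ℝ) * ((T.D (ψ t) : ℝ) * M' (ψ t)) + (y (some none) : ℝ)) := by
      linarith [hrelR t]
    rw [e1, e2]
    field_simp
    ring

/-- several forms modulo one -/
theorem rows (hS : ∀ p ∈ S, p.Prime) (hx : ∀ i j, IsAlgebraic ℚ (x i j)) (hε : 0 < ε)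
    (T : Blk J B S x C ε) {H : Type} [Fintype H] (α : H → B → ℝ)
    (hα : ∀ a i, IsAlgebraic ℚ (α a i))
    (hind : ∀ c : H → ℤ, c ≠ 0 → ∃ i, ∀ q : ℤ, ∑ a, (c a : ℝ) * α a i ≠ q) (γ : H → ℝ)
    (hγ : ∀ a, IsAlgebraic ℚ (γ a)) (P : ℕ → H → ℤ) (β : ℕ → H → ℝ)
    (hβ : ∀ t a, 0 < β t a ∧ β t a ≤ 1 ∧ |Real.log (β t a)| ≤ C * T.N t)
    (hP : ∀ t a, |∑ i, α a i * T.W t i - γ a - P t a| ≤ β t a)
    (hsm : ∀ t, (∏ a, β t a) * Real.exp (ε * T.N t) ≤ 1) : False := by
  classical
  have hD1 := T.D1
  set A : ℝ := ∑ a, (∑ i, |α a i| + |γ a| + 1) with hA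
  have hAa : ∀ a, ∑ i, |α a i| + |γ a| + 1 ≤ A := fun a =>
    Finset.single_le_sum (f := fun a => ∑ i, |α a i| + |γ a| + 1)
      (fun b _ => by
        have : 0 ≤ ∑ i, |α b i| := Finset.sum_nonneg fun _ _ => abs_nonneg _
        have := abs_nonneg (γ b)
        positivity) (Finset.mem_univ a)
  have hA0 : 0 ≤ A := Finset.sum_nonneg fun b _ => by
    have : 0 ≤ ∑ i, |α b i| := Finset.sum_nonneg fun _ _ => abs_nonneg _
    have := abs_nonneg (γ b)
    positivity
  have hPD : ∀ t a, |(P t a : ℝ)| ≤ (A + 1) * T.D t := by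
    intro t a
    have hsumW : |∑ i, α a i * (T.W t i : ℝ)| ≤ (∑ i, |α a i|) * T.D t := by
      rw [Finset.sum_mul]
      refine (Finset.abs_sum_le_sum_abs _ _).trans (Finset.sum_le_sum fun i _ => ?_)
      rw [abs_mul]
      exact mul_le_mul_of_nonneg_left (T.hW t i) (abs_nonneg _)
    have e1 : (P t a : ℝ) = (∑ i, α a i * (T.W t i : ℝ)) - γ a -
        (∑ i, α a i * T.W t i - γ a - P t a) := by ring
    have e2 := abs_sub (∑ i, α a i * (T.W t i : ℝ) - γ a) (∑ i, α a i * T.W t i - γ a - P t a)
    have e3 := abs_sub (∑ i, α a i * (T.W t i : ℝ)) (γ a)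
    rw [← e1] at e2
    have e4 := (hP t a).trans (hβ t a).2.1
    have e5 : |γ a| ≤ |γ a| * T.D t := le_mul_of_one_le_right (abs_nonneg _) (hD1 t)
    have e6 : (∑ i, |α a i| + |γ a| + 1) * T.D t ≤ A * T.D t :=
      mul_le_mul_of_nonneg_right (hAa a) (by linarith [hD1 t])
    have e7 := hD1 t
    nlinarith
  obtain ⟨y, hy, hfr⟩ := mast (κ := Option (B ⊕ H)) hS x hx
    (fun i => fun o => o.elim 0 (Sum.elim (fun i' => if i' = i then 1 else 0) (fun _ => 0)))
    (fun i l => by
      rcases l with _ | l | l
      · exact isAlgebraic_zero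
      · simp only [Option.elim_some, Sum.elim_inl]
        split_ifs
        · exact isAlgebraic_one
        · exact isAlgebraic_zero
      · exact isAlgebraic_zero)
    (fun l l' => l.elim (l'.elim 1 (fun _ => 0)) (Sum.elim
      (fun i => l'.elim 0 (Sum.elim (fun i' => if i' = i then 1 else 0) (fun _ => 0)))
      (fun a => l'.elim (-γ a) (Sum.elim (α a) (fun a' => if a' = a then -1 else 0)))))
    (fun l l' => by
      rcases l with _ | l | l <;> rcases l' with _ | l' | l' <;> simp only [Option.elim_none,
        Option.elim_some, Sum.elim_inl, Sum.elim_inr]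
      · exact isAlgebraic_one
      · exact isAlgebraic_zero
      · exact isAlgebraic_zero
      · exact isAlgebraic_zero
      · split_ifs
        · exact isAlgebraic_one
        · exact isAlgebraic_zero
      · exact isAlgebraic_zero
      · exact (hγ l).neg
      · exact hα l l'
      · split_ifs
        · exact isAlgebraic_one.neg
        · exact isAlgebraic_zero) (by
      intro v hv
      have h0 : v none = 0 := by
        have := hv none
        rw [Fintype.sum_option] at this
        simpa using this
      have h1 : ∀ i, v (some (Sum.inl i)) = 0 := by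
        intro i
        have := hv (some (Sum.inl i))
        rw [Fintype.sum_option, Fintype.sum_sum_type] at this
        simpa using this
      have h2 : ∀ a, v (some (Sum.inr a)) = 0 := by
        intro a
        have := hv (some (Sum.inr a))
        rw [Fintype.sum_option, Fintype.sum_sum_type] at this
        simpa [h0, h1] using this
      funext l
      rcases l with _ | l | l
      · exact h0
      · exact h1 l
      · exact h2 l) C ε (A + 1) 1 T.C0 hε le_rfl T.N T.hN T.hN0
    (fun t => Real.one_le_exp (mul_nonneg T.C0 (by linarith [T.hN0 t]))) T.u T.D T.M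
    (fun t o => o.elim 1 (Sum.elim (T.W t) (P t))) (fun _ => false)
    (fun t o => o.elim 1 (Sum.elim (T.W t) (P t)))
    (by intro t l; simp)
    (fun t o => o.elim 1 (Sum.elim (fun _ => (T.D t : ℝ)) (β t))) T.hu T.hD
    (by
      intro t i
      have h1 := T.hφ t i
      rw [Fintype.sum_option, Fintype.sum_sum_type]
      simpa using h1)
    (by
      intro t l
      have hDt := hD1 t
      rcases l with _ | l | l
      · simp only [Option.elim_none, Int.cast_one, abs_one]
        nlinarith
      · simp only [Option.elim_some, Sum.elim_inl]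
        refine (T.hW t l).trans ?_
        nlinarith
      · simp only [Option.elim_some, Sum.elim_inr]
        exact hPD t l)
    (by
      intro t l
      rcases l with _ | l | l
      · simp only [Option.elim_none, Real.log_one, abs_zero]
        exact ⟨one_pos, mul_nonneg T.C0 (by linarith [T.hN0 t])⟩
      · simp only [Option.elim_some, Sum.elim_inl]
        exact ⟨by linarith [hD1 t], T.log1 t (hD1 t) (T.hD t).2⟩
      · simp only [Option.elim_some, Sum.elim_inr]
        exact ⟨(hβ t l).1, (hβ t l).2.2⟩)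
    (by
      intro t l
      rw [Fintype.sum_option, Fintype.sum_sum_type]
      rcases l with _ | l | l
      · simp
      · simpa using T.hW t l
      · simp only [Option.elim_some, Option.elim_none, Sum.elim_inl, Sum.elim_inr, Int.cast_one,
          mul_one, ite_mul, zero_mul, Finset.sum_ite_eq', Finset.mem_univ, if_true]
        refine le_trans (le_of_eq ?_) (hP t l)
        congr 1
        ring)
    (by
      intro t
      rw [Fintype.prod_option, Fintype.prod_sum_type]
      simp only [one_pow, one_mul, Option.elim_none, Option.elim_some, Sum.elim_inl, Sum.elim_inr,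
        Bool.false_eq_true, if_false, Finset.prod_const_one, mul_one, Finset.prod_const,
        Finset.card_univ]
      calc (T.D t : ℝ) ^ (Fintype.card B) * (∏ a, β t a) * Real.exp (ε * T.N t)
          = (T.D t : ℝ) ^ (Fintype.card B) * ((∏ a, β t a) * Real.exp (ε * T.N t)) := by ring
        _ ≤ (T.D t : ℝ) ^ (Fintype.card B) :=
            mul_le_of_le_one_right (by positivity) (hsm t)) T.hG
  have hfr' : ∃ᶠ t in atTop, y none + (∑ i, y (some (Sum.inl i)) * T.W t i +
      ∑ a, y (some (Sum.inr a)) * P t a) = 0 := by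
    refine hfr.mono fun t ht => ?_
    rw [Fintype.sum_option, Fintype.sum_sum_type] at ht
    simpa using ht
  by_cases hc : (fun a => y (some (Sum.inr a))) = 0
  · have hc' : ∀ a, y (some (Sum.inr a)) = 0 := fun a => congrFun hc a
    have hne : y none ≠ 0 ∨ (fun i => y (some (Sum.inl i))) ≠ 0 := by
      by_contra h
      push Not at h
      apply hy
      funext l
      rcases l with _ | l | l
      · exact h.1
      · exact congrFun h.2 l
      · exact hc' l
    obtain ⟨t, ht1, ht2⟩ := (hfr'.and_eventually (norel hS hx hε T _ _ hne)).exists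
    simp only [hc', zero_mul, Finset.sum_const_zero, add_zero] at ht1
    exact ht2 ht1
  obtain ⟨i0, hi0⟩ := hind _ hc
  set α' : B → ℝ := fun i => (y (some (Sum.inl i)) : ℝ) +
    ∑ a, (y (some (Sum.inr a)) : ℝ) * α a i with hα'
  have hα'0 : α' ≠ 0 := by
    intro h
    have h1 := congrFun h i0
    apply hi0 (-y (some (Sum.inl i0)))
    simp only [hα', Pi.zero_apply] at h1
    push_cast
    linarith
  set K : ℝ := max 1 (∑ a, |(y (some (Sum.inr a)) : ℝ)|) with hK
  have hK1 : 1 ≤ K := le_max_left _ _
  have hev : ∀ᶠ t in atTop, K ≤ Real.exp (ε / 2 * T.N t) :=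
    (Real.tendsto_exp_atTop.comp (T.hN.const_mul_atTop (half_pos hε))).eventually_ge_atTop K
  obtain ⟨ψ, hψ, hrel⟩ := Filter.extraction_of_frequently_atTop (hfr'.and_eventually hev)
  -- pass to half of the exponent
  have hsub := T.sub ψ hψ
  set T' : Blk J B S x C (ε / 2) :=
    { N := fun t => T.N (ψ t)
      u := fun t => T.u (ψ t)
      D := fun t => T.D (ψ t)
      M := fun t => T.M (ψ t)
      W := fun t => T.W (ψ t)
      hN := T.hN.comp hψ.tendsto_atTop
      hN0 := fun t => T.hN0 _
      hu := fun t => T.hu _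
      hD := fun t => T.hD _
      hφ := fun t => T.hφ _
      hW := fun t => T.hW _
      hDe := fun t => (Real.exp_le_exp.2 (by
        have := T.hN0 (ψ t)
        nlinarith)).trans (T.hDe (ψ t))
      hG := fun r s K h => T.hG r s K (hψ.tendsto_atTop.frequently h) } with hT'
  have halgsum : ∀ (f : H → ℝ), (∀ a, IsAlgebraic ℚ (f a)) → IsAlgebraic ℚ (∑ a, f a) := by
    intro f hf
    have : ∀ F : Finset H, IsAlgebraic ℚ (∑ a ∈ F, f a) := by
      intro F
      induction F using Finset.induction_on with
      | empty =>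
        rw [Finset.sum_empty]
        exact isAlgebraic_zero
      | insert a F ha ih =>
        rw [Finset.sum_insert ha]
        exact (hf a).add ih
    exact this _
  refine form hS hx (half_pos hε) T' α' (fun i => (isAlgebraic_intCast _).add
    (halgsum _ fun a => (isAlgebraic_intCast _).mul (hα a i))) hα'0
    (∑ a, (y (some (Sum.inr a)) : ℝ) * γ a - (y none : ℝ))
    ((halgsum _ fun a => (isAlgebraic_intCast _).mul (hγ a)).sub (isAlgebraic_intCast _))
    (fun _ => K) (fun _ => hK1) ?_ ?_
  · intro t
    show |∑ i, α' i * (T.W (ψ t) i : ℝ) -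
      (∑ a, (y (some (Sum.inr a)) : ℝ) * γ a - (y none : ℝ))| ≤ K
    have h1 : (y none : ℝ) + (∑ i, (y (some (Sum.inl i)) : ℝ) * T.W (ψ t) i +
        ∑ a, (y (some (Sum.inr a)) : ℝ) * P (ψ t) a) = 0 := by exact_mod_cast (hrel t).1
    have e1 : ∑ i, α' i * (T.W (ψ t) i : ℝ) = ∑ i, (y (some (Sum.inl i)) : ℝ) * T.W (ψ t) i +
        ∑ a, (y (some (Sum.inr a)) : ℝ) * ∑ i, α a i * T.W (ψ t) i := by
      simp only [hα', add_mul, Finset.sum_add_distrib]
      congr 1
      simp only [Finset.sum_mul, Finset.mul_sum]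
      rw [Finset.sum_comm]
      exact Finset.sum_congr rfl fun i _ => Finset.sum_congr rfl fun j _ => by ring
    have e2 : ∑ i, α' i * (T.W (ψ t) i : ℝ) -
        (∑ a, (y (some (Sum.inr a)) : ℝ) * γ a - (y none : ℝ)) =
        ∑ a, (y (some (Sum.inr a)) : ℝ) * (∑ i, α a i * T.W (ψ t) i - γ a - P (ψ t) a) := by
      have e3 : ∑ a, (y (some (Sum.inr a)) : ℝ) * (∑ i, α a i * T.W (ψ t) i - γ a - P (ψ t) a) =
          ∑ a, (y (some (Sum.inr a)) : ℝ) * ∑ i, α a i * T.W (ψ t) i -
          ∑ a, (y (some (Sum.inr a)) : ℝ) * γ a -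
          ∑ a, (y (some (Sum.inr a)) : ℝ) * P (ψ t) a := by
        rw [← Finset.sum_sub_distrib, ← Finset.sum_sub_distrib]
        exact Finset.sum_congr rfl fun a _ => by ring
      rw [e3, e1]
      linear_combination h1
    rw [e2]
    refine le_trans ?_ (le_max_right _ _)
    refine (Finset.abs_sum_le_sum_abs _ _).trans (Finset.sum_le_sum fun a _ => ?_)
    rw [abs_mul]
    exact mul_le_of_le_one_right (abs_nonneg _) ((hP (ψ t) a).trans (hβ (ψ t) a).2.1)
  · intro t
    show K * Real.exp (ε / 2 * T.N (ψ t)) ≤ T.D (ψ t)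
    refine le_trans ?_ (T.hDe (ψ t))
    have h2 : Real.exp (ε * T.N (ψ t)) = Real.exp (ε / 2 * T.N (ψ t)) *
        Real.exp (ε / 2 * T.N (ψ t)) := by
      rw [← Real.exp_add]
      congr 1
      ring
    rw [h2]
    exact mul_le_mul_of_nonneg_right (hrel t).2 (Real.exp_pos _).le

end Pool.Agent.U773.JB
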