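import Mathlib
import Pool.Agent.U773.JB.Rows

/-! Several blocks: a form modulo `D` and forms modulo one together. -/

set_option autoImplicit false

open Finset Filter Topology

namespace Pool.Agent.U773.JB

open Pool.Agent.TH419.WI Pool.Agent.N671.OPN Pool.Agent.U773.SF Pool.Agent.U773.WN
  Pool.Agent.U773.RS Pool.Agent.U773.BD Pool.Agent.U773.DB

variable {J B : Type} [Fintype J] [Fintype B] [Nonempty J] {S : Finset ℕ}
  {x : B → J → ℝ} {C ε : ℝ}

lemma alg_sum {H : Type} [Fintype H] (f : H → ℝ) (hf : ∀ a, IsAlgebraic ℚ (f a)) :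
    IsAlgebraic ℚ (∑ a, f a) := by
  classical
  have : ∀ F : Finset H, IsAlgebraic ℚ (∑ a ∈ F, f a) := by
    intro F
    induction F using Finset.induction_on with
    | empty =>
      rw [Finset.sum_empty]
      exact isAlgebraic_zero
    | insert a F ha ih =>
      rw [Finset.sum_insert ha]
      exact (hf a).add ih
  exact this _

/-- no rational relation between `1`, the `W_i` and the integers near the forms -/
theorem relP (hS : ∀ p ∈ S, p.Prime) (hx : ∀ i j, IsAlgebraic ℚ (x i j)) (hε : 0 < ε)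
    (T : Blk J B S x C ε) {H : Type} [Fintype H] (α : H → B → ℝ)
    (hα : ∀ a i, IsAlgebraic ℚ (α a i))
    (hind : ∀ c : H → ℤ, c ≠ 0 → ∃ i, ∀ q : ℤ, ∑ a, (c a : ℝ) * α a i ≠ q) (γ : H → ℝ)
    (hγ : ∀ a, IsAlgebraic ℚ (γ a)) (P : ℕ → H → ℤ)
    (hP : ∀ t a, |∑ i, α a i * T.W t i - γ a - P t a| ≤ 1) (y0 : ℤ) (yW : B → ℤ) (yP : H → ℤ)
    (hne : yP ≠ 0 ∨ (y0 ≠ 0 ∨ yW ≠ 0))
    (hfr' : ∃ᶠ t in atTop, y0 + (∑ i, yW i * T.W t i + ∑ a, yP a * P t a) = 0) : False := by
  classical
  by_cases hc : yP = 0
  · have hc' : ∀ a, yP a = 0 := fun a => congrFun hc a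
    have hne' : y0 ≠ 0 ∨ yW ≠ 0 := hne.resolve_left (fun h => h hc)
    obtain ⟨t, ht1, ht2⟩ := (hfr'.and_eventually (norel hS hx hε T _ _ hne')).exists
    simp only [hc', zero_mul, Finset.sum_const_zero, add_zero] at ht1
    exact ht2 ht1
  obtain ⟨i0, hi0⟩ := hind _ hc
  set α' : B → ℝ := fun i => (yW i : ℝ) + ∑ a, (yP a : ℝ) * α a i with hα'
  have hα'0 : α' ≠ 0 := by
    intro h
    have h1 := congrFun h i0
    apply hi0 (-yW i0)
    simp only [hα', Pi.zero_apply] at h1
    push_cast
    linarith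
  set K : ℝ := max 1 (∑ a, |(yP a : ℝ)|) with hK
  have hK1 : 1 ≤ K := le_max_left _ _
  have hev : ∀ᶠ t in atTop, K ≤ Real.exp (ε / 2 * T.N t) :=
    (Real.tendsto_exp_atTop.comp (T.hN.const_mul_atTop (half_pos hε))).eventually_ge_atTop K
  obtain ⟨ψ, hψ, hrel⟩ := Filter.extraction_of_frequently_atTop (hfr'.and_eventually hev)
  set T' : Blk J B S x C (ε / 2) :=
    { N := fun t => T.N (ψ t)
      u := fun t => T.u (ψ t)
      D := fun t => T.D (ψ t)
      M := fun t => T.M (ψ t)
      W := fun t => T.W (ψ t)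
      hN := T.hN.comp hψ.tendsto_atTop
      hN0 := fun t => T.hN0 _
      hu := fun t => T.hu _
      hD := fun t => T.hD _
      hφ := fun t => T.hφ _
      hW := fun t => T.hW _
      hDe := fun t => (Real.exp_le_exp.2 (by
        have := T.hN0 (ψ t)
        nlinarith)).trans (T.hDe (ψ t))
      hG := fun r s K h => T.hG r s K (hψ.tendsto_atTop.frequently h) } with hT'
  refine form hS hx (half_pos hε) T' α' (fun i => (isAlgebraic_intCast _).add
    (alg_sum _ fun a => (isAlgebraic_intCast _).mul (hα a i))) hα'0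
    (∑ a, (yP a : ℝ) * γ a - (y0 : ℝ))
    ((alg_sum _ fun a => (isAlgebraic_intCast _).mul (hγ a)).sub (isAlgebraic_intCast _))
    (fun _ => K) (fun _ => hK1) ?_ ?_
  · intro t
    show |∑ i, α' i * (T.W (ψ t) i : ℝ) - (∑ a, (yP a : ℝ) * γ a - (y0 : ℝ))| ≤ K
    have h1 : (y0 : ℝ) + (∑ i, (yW i : ℝ) * T.W (ψ t) i +
        ∑ a, (yP a : ℝ) * P (ψ t) a) = 0 := by exact_mod_cast (hrel t).1
    have e1 : ∑ i, α' i * (T.W (ψ t) i : ℝ) = ∑ i, (yW i : ℝ) * T.W (ψ t) i +
        ∑ a, (yP a : ℝ) * ∑ i, α a i * T.W (ψ t) i := by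
      simp only [hα', add_mul, Finset.sum_add_distrib]
      congr 1
      simp only [Finset.sum_mul, Finset.mul_sum]
      rw [Finset.sum_comm]
      exact Finset.sum_congr rfl fun i _ => Finset.sum_congr rfl fun j _ => by ring
    have e2 : ∑ i, α' i * (T.W (ψ t) i : ℝ) - (∑ a, (yP a : ℝ) * γ a - (y0 : ℝ)) =
        ∑ a, (yP a : ℝ) * (∑ i, α a i * T.W (ψ t) i - γ a - P (ψ t) a) := by
      have e3 : ∑ a, (yP a : ℝ) * (∑ i, α a i * T.W (ψ t) i - γ a - P (ψ t) a) =
          ∑ a, (yP a : ℝ) * ∑ i, α a i * T.W (ψ t) i - ∑ a, (yP a : ℝ) * γ a -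
          ∑ a, (yP a : ℝ) * P (ψ t) a := by
        rw [← Finset.sum_sub_distrib, ← Finset.sum_sub_distrib]
        exact Finset.sum_congr rfl fun a _ => by ring
      rw [e3, e1]
      linear_combination h1
    rw [e2]
    refine le_trans ?_ (le_max_right _ _)
    refine (Finset.abs_sum_le_sum_abs _ _).trans (Finset.sum_le_sum fun a _ => ?_)
    rw [abs_mul]
    exact mul_le_of_le_one_right (abs_nonneg _) (hP (ψ t) a)
  · intro t
    show K * Real.exp (ε / 2 * T.N (ψ t)) ≤ T.D (ψ t)
    refine le_trans ?_ (T.hDe (ψ t))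
    have h2 : Real.exp (ε * T.N (ψ t)) = Real.exp (ε / 2 * T.N (ψ t)) *
        Real.exp (ε / 2 * T.N (ψ t)) := by
      rw [← Real.exp_add]
      congr 1
      ring
    rw [h2]
    exact mul_le_mul_of_nonneg_right (hrel t).2 (Real.exp_pos _).le

/-- a form modulo `D` and forms modulo one -/
theorem comb (hS : ∀ p ∈ S, p.Prime) (hx : ∀ i j, IsAlgebraic ℚ (x i j)) (hε : 0 < ε)
    (T : Blk J B S x C ε) {H : Type} [Fintype H] (α0 : B → ℝ)
    (hα0 : ∀ i, IsAlgebraic ℚ (α0 i)) (hα00 : α0 ≠ 0) (γ0 : ℝ) (hγ0 : IsAlgebraic ℚ γ0)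
    (α : H → B → ℝ) (hα : ∀ a i, IsAlgebraic ℚ (α a i))
    (hind : ∀ (c0 : ℤ) (c : H → ℤ), c ≠ 0 →
      ∃ i, ∀ q : ℤ, (c0 : ℝ) * α0 i + ∑ a, (c a : ℝ) * α a i ≠ q) (γ : H → ℝ)
    (hγ : ∀ a, IsAlgebraic ℚ (γ a)) (M' : ℕ → ℤ) (E : ℕ → ℝ) (hE1 : ∀ t, 1 ≤ E t)
    (hED : ∀ t, E t ≤ T.D t)
    (hE : ∀ t, |∑ i, α0 i * T.W t i - γ0 - T.D t * M' t| ≤ E t)
    (P : ℕ → H → ℤ) (β : ℕ → H → ℝ)
    (hβ : ∀ t a, 0 < β t a ∧ β t a ≤ 1 ∧ |Real.log (β t a)| ≤ C * T.N t)
    (hP : ∀ t a, |∑ i, α a i * T.W t i - γ a - P t a| ≤ β t a)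
    (hsm : ∀ t, E t * (∏ a, β t a) * Real.exp (ε * T.N t) ≤ T.D t) : False := by
  classical
  have hD1 := T.D1
  have hP1 : ∀ t a, |∑ i, α a i * T.W t i - γ a - P t a| ≤ 1 := fun t a =>
    (hP t a).trans (hβ t a).2.1
  have hind' : ∀ c : H → ℤ, c ≠ 0 → ∃ i, ∀ q : ℤ, ∑ a, (c a : ℝ) * α a i ≠ q := by
    intro c hc
    obtain ⟨i, hi⟩ := hind 0 c hc
    refine ⟨i, fun q => ?_⟩
    have := hi q
    simpa using this
  set A : ℝ := (∑ i, |α0 i| + |γ0| + 1) + ∑ a, (∑ i, |α a i| + |γ a| + 1) with hA
  have hA0 : 0 ≤ ∑ i, |α0 i| + |γ0| + 1 := by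
    have : 0 ≤ ∑ i, |α0 i| := Finset.sum_nonneg fun _ _ => abs_nonneg _
    have := abs_nonneg γ0
    positivity
  have hAs : 0 ≤ ∑ a, (∑ i, |α a i| + |γ a| + 1) := Finset.sum_nonneg fun b _ => by
    have : 0 ≤ ∑ i, |α b i| := Finset.sum_nonneg fun _ _ => abs_nonneg _
    have := abs_nonneg (γ b)
    positivity
  have hAa : ∀ a, ∑ i, |α a i| + |γ a| + 1 ≤ A := fun a => by
    have := Finset.single_le_sum (f := fun a => ∑ i, |α a i| + |γ a| + 1)
      (fun b _ => by
        have : 0 ≤ ∑ i, |α b i| := Finset.sum_nonneg fun _ _ => abs_nonneg _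
        have := abs_nonneg (γ b)
        positivity) (Finset.mem_univ a)
    linarith
  have hA1 : ∑ i, |α0 i| + |γ0| + 1 ≤ A := by linarith
  have hA00 : 0 ≤ A := by linarith
  have bnd : ∀ (f : B → ℝ) (g : ℝ) (t : ℕ) (v w : ℝ), ∑ i, |f i| + |g| + 1 ≤ A → w ≤ T.D t →
      |∑ i, f i * (T.W t i : ℝ) - g - v| ≤ w → |v| ≤ (A + 1) * T.D t := by
    intro f g t v w hA' hw hv
    have hsumW : |∑ i, f i * (T.W t i : ℝ)| ≤ (∑ i, |f i|) * T.D t := by
      rw [Finset.sum_mul]
      refine (Finset.abs_sum_le_sum_abs _ _).trans (Finset.sum_le_sum fun i _ => ?_)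
      rw [abs_mul]
      exact mul_le_mul_of_nonneg_left (T.hW t i) (abs_nonneg _)
    have e1 : v = (∑ i, f i * (T.W t i : ℝ)) - g - (∑ i, f i * T.W t i - g - v) := by ring
    have e2 := abs_sub (∑ i, f i * (T.W t i : ℝ) - g) (∑ i, f i * T.W t i - g - v)
    have e3 := abs_sub (∑ i, f i * (T.W t i : ℝ)) g
    rw [← e1] at e2
    have e5 : |g| ≤ |g| * T.D t := le_mul_of_one_le_right (abs_nonneg _) (hD1 t)
    have e6 : (∑ i, |f i| + |g| + 1) * T.D t ≤ A * T.D t :=
      mul_le_mul_of_nonneg_right hA' (by linarith [hD1 t])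
    have e7 := hD1 t
    nlinarith
  have hDM : ∀ t, |((T.D t : ℝ) * M' t)| ≤ (A + 1) * T.D t := fun t =>
    bnd α0 γ0 t _ _ hA1 (hED t) (hE t)
  have hPD : ∀ t a, |(P t a : ℝ)| ≤ (A + 1) * T.D t := fun t a =>
    bnd (α a) (γ a) t _ _ (hAa a) (hD1 t) (hP1 t a)
  obtain ⟨y, hy, hfr⟩ := mast (κ := Option (Option (B ⊕ H))) hS x hx
    (fun i => fun o => o.elim 0 (fun o' => o'.elim 0
      (Sum.elim (fun i' => if i' = i then 1 else 0) (fun _ => 0))))
    (fun i l => by
      rcases l with _ | _ | l | l
      · exact isAlgebraic_zero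
      · exact isAlgebraic_zero
      · simp only [Option.elim_some, Sum.elim_inl]
        split_ifs
        · exact isAlgebraic_one
        · exact isAlgebraic_zero
      · exact isAlgebraic_zero)
    (fun l l' => l.elim (l'.elim (-1) (fun o => o.elim (-γ0) (Sum.elim α0 (fun _ => 0))))
      (fun o => l'.elim 0 (fun o' => o.elim (o'.elim 1 (fun _ => 0)) (Sum.elim
      (fun i => o'.elim 0 (Sum.elim (fun i' => if i' = i then 1 else 0) (fun _ => 0)))
      (fun a => o'.elim (-γ a) (Sum.elim (α a) (fun a' => if a' = a then -1 else 0)))))))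
    (fun l l' => by
      rcases l with _ | _ | l | l <;> rcases l' with _ | _ | l' | l' <;>
        simp only [Option.elim_none, Option.elim_some, Sum.elim_inl, Sum.elim_inr]
      · exact isAlgebraic_one.neg
      · exact hγ0.neg
      · exact hα0 l'
      · exact isAlgebraic_zero
      · exact isAlgebraic_zero
      · exact isAlgebraic_one
      · exact isAlgebraic_zero
      · exact isAlgebraic_zero
      · exact isAlgebraic_zero
      · exact isAlgebraic_zero
      · split_ifs
        · exact isAlgebraic_one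
        · exact isAlgebraic_zero
      · exact isAlgebraic_zero
      · exact isAlgebraic_zero
      · exact (hγ l).neg
      · exact hα l l'
      · split_ifs
        · exact isAlgebraic_one.neg
        · exact isAlgebraic_zero) (by
      intro v hv
      have h0 : v (some none) = 0 := by
        have := hv (some none)
        rw [Fintype.sum_option, Fintype.sum_option] at this
        simpa using this
      have h1 : ∀ i, v (some (some (Sum.inl i))) = 0 := by
        intro i
        have := hv (some (some (Sum.inl i)))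
        rw [Fintype.sum_option, Fintype.sum_option, Fintype.sum_sum_type] at this
        simpa using this
      have h2 : ∀ a, v (some (some (Sum.inr a))) = 0 := by
        intro a
        have := hv (some (some (Sum.inr a)))
        rw [Fintype.sum_option, Fintype.sum_option, Fintype.sum_sum_type] at this
        simpa [h0, h1] using this
      have h3 : v none = 0 := by
        have := hv none
        rw [Fintype.sum_option, Fintype.sum_option, Fintype.sum_sum_type] at this
        simpa [h0, h1] using this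
      funext l
      rcases l with _ | _ | l | l
      · exact h3
      · exact h0
      · exact h1 l
      · exact h2 l) C ε (A + 1) 1 T.C0 hε le_rfl T.N T.hN T.hN0
    (fun t => Real.one_le_exp (mul_nonneg T.C0 (by linarith [T.hN0 t]))) T.u T.D T.M
    (fun t o => o.elim ((T.D t : ℤ) * M' t) (fun o' => o'.elim 1 (Sum.elim (T.W t) (P t))))
    (fun o => o.elim true (fun _ => false))
    (fun t o => o.elim (M' t) (fun o' => o'.elim 1 (Sum.elim (T.W t) (P t))))
    (by
      intro t l
      rcases l with _ | l <;> simp)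
    (fun t o => o.elim (E t) (fun o' => o'.elim 1
      (Sum.elim (fun _ => (T.D t : ℝ)) (β t)))) T.hu T.hD
    (by
      intro t i
      have h1 := T.hφ t i
      rw [Fintype.sum_option, Fintype.sum_option, Fintype.sum_sum_type]
      simpa using h1)
    (by
      intro t l
      have hDt := hD1 t
      rcases l with _ | _ | l | l
      · simpa using hDM t
      · simp only [Option.elim_some, Option.elim_none, Int.cast_one, abs_one]
        nlinarith
      · simp only [Option.elim_some, Sum.elim_inl]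
        refine (T.hW t l).trans ?_
        nlinarith
      · simp only [Option.elim_some, Sum.elim_inr]
        exact hPD t l)
    (by
      intro t l
      rcases l with _ | _ | l | l
      · simp only [Option.elim_none]
        exact ⟨by linarith [hE1 t], T.log1 t (hE1 t) ((hED t).trans (T.hD t).2)⟩
      · simp only [Option.elim_some, Option.elim_none, Real.log_one, abs_zero]
        exact ⟨one_pos, mul_nonneg T.C0 (by linarith [T.hN0 t])⟩
      · simp only [Option.elim_some, Sum.elim_inl]
        exact ⟨by linarith [hD1 t], T.log1 t (hD1 t) (T.hD t).2⟩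
      · simp only [Option.elim_some, Sum.elim_inr]
        exact ⟨(hβ t l).1, (hβ t l).2.2⟩)
    (by
      intro t l
      rw [Fintype.sum_option, Fintype.sum_option, Fintype.sum_sum_type]
      rcases l with _ | _ | l | l
      · simp only [Option.elim_some, Option.elim_none, Sum.elim_inl, Sum.elim_inr, Int.cast_one,
          mul_one, zero_mul, Finset.sum_const_zero, add_zero]
        refine le_trans (le_of_eq ?_) (hE t)
        congr 1
        push_cast
        ring
      · simp
      · simpa using T.hW t l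
      · simp only [Option.elim_some, Option.elim_none, Sum.elim_inl, Sum.elim_inr, Int.cast_one,
          mul_one, ite_mul, zero_mul, Finset.sum_ite_eq', Finset.mem_univ, if_true]
        refine le_trans (le_of_eq ?_) (hP t l)
        congr 1
        ring)
    (by
      intro t
      rw [Fintype.prod_option, Fintype.prod_option, Fintype.prod_sum_type,
        Fintype.prod_option]
      simp only [one_pow, one_mul, Option.elim_none, Option.elim_some, Sum.elim_inl, Sum.elim_inr,
        Bool.false_eq_true, if_false, if_true, Finset.prod_const_one, mul_one, Finset.prod_const,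
        Finset.card_univ]
      calc E t * ((T.D t : ℝ) ^ (Fintype.card B) * ∏ a, β t a) * Real.exp (ε * T.N t)
          = (T.D t : ℝ) ^ (Fintype.card B) *
            (E t * (∏ a, β t a) * Real.exp (ε * T.N t)) := by ring
        _ ≤ (T.D t : ℝ) ^ (Fintype.card B) * T.D t :=
            mul_le_mul_of_nonneg_left (hsm t) (by positivity)) T.hG
  have hfr' : ∃ᶠ t in atTop, y none * ((T.D t : ℤ) * M' t) + (y (some none) +
      (∑ i, y (some (some (Sum.inl i))) * T.W t i +
      ∑ a, y (some (some (Sum.inr a))) * P t a)) = 0 := by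
    refine hfr.mono fun t ht => ?_
    rw [Fintype.sum_option, Fintype.sum_option, Fintype.sum_sum_type] at ht
    simpa using ht
  by_cases hyM : y none = 0
  · refine relP hS hx hε T α hα hind' γ hγ P hP1 (y (some none))
      (fun i => y (some (some (Sum.inl i)))) (fun a => y (some (some (Sum.inr a)))) ?_
      (hfr'.mono fun t ht => by simpa [hyM] using ht)
    by_contra h
    push Not at h
    apply hy
    funext l
    rcases l with _ | _ | l | l
    · exact hyM
    · exact h.2.1
    · exact congrFun h.2.2 l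
    · exact congrFun h.1 l
  have hyR : ((y none : ℤ) : ℝ) ≠ 0 := by exact_mod_cast hyM
  obtain ⟨ψ, hψ, hrel⟩ := Filter.extraction_of_frequently_atTop hfr'
  have hrelR : ∀ t, (y none : ℝ) * ((T.D (ψ t) : ℝ) * M' (ψ t)) + ((y (some none) : ℝ) +
      (∑ i, (y (some (some (Sum.inl i))) : ℝ) * T.W (ψ t) i +
      ∑ a, (y (some (some (Sum.inr a))) : ℝ) * P (ψ t) a)) = 0 := fun t => by
    exact_mod_cast hrel t
  set yM : ℤ := y none with hyMd
  set y0 : ℤ := y (some none) with hy0d
  set yW : B → ℤ := fun i => y (some (some (Sum.inl i))) with hyWd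
  set yP : H → ℤ := fun a => y (some (some (Sum.inr a))) with hyPd
  have hrelR : ∀ t, (yM : ℝ) * ((T.D (ψ t) : ℝ) * M' (ψ t)) + ((y0 : ℝ) +
      (∑ i, (yW i : ℝ) * T.W (ψ t) i + ∑ a, (yP a : ℝ) * P (ψ t) a)) = 0 := hrelR
  set α' : B → ℝ := fun i => α0 i + ((yW i : ℝ) + ∑ a, (yP a : ℝ) * α a i) / yM with hα'
  by_cases hα'0 : α' = 0
  · -- rational coefficients
    have hcomb : ∀ i, (yM : ℝ) * α0 i + ∑ a, (yP a : ℝ) * α a i = ((-yW i : ℤ) : ℝ) := by
      intro i
      have h1 := congrFun hα'0 i
      simp only [hα', Pi.zero_apply] at h1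
      have h2 : (yM : ℝ) * (α0 i + ((yW i : ℝ) + ∑ a, (yP a : ℝ) * α a i) / yM) = 0 := by
        rw [h1, mul_zero]
      rw [mul_add, mul_div_cancel₀ _ hyR] at h2
      push_cast
      linarith
    have hyP0 : yP = 0 := by
      by_contra hne
      obtain ⟨i, hi⟩ := hind yM yP hne
      exact hi _ (hcomb i)
    have hyP' : ∀ a, yP a = 0 := fun a => congrFun hyP0 a
    simp only [hyP', Int.cast_zero, zero_mul, Finset.sum_const_zero, add_zero] at hrelR hcomb
    have hs : yW ≠ 0 := by
      intro h
      apply hα00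
      funext i
      have h1 := hcomb i
      rw [h] at h1
      simp only [Pi.zero_apply, neg_zero, Int.cast_zero] at h1 ⊢
      exact (mul_eq_zero.1 h1).resolve_left hyR
    refine ridout hS hx hε (T.sub ψ hψ) _ hs
      (fun t => ∑ i, yW i * T.M (ψ t) i - yM * M' (ψ t))
      (|(y0 : ℝ)| + ∑ i, |(yW i : ℝ)|) ?_
    intro t
    show |∑ j, (∑ i, (yW i : ℝ) * x i j) * T.u (ψ t) j - T.D (ψ t) *
      ((∑ i, yW i * T.M (ψ t) i - yM * M' (ψ t) : ℤ) : ℝ)| ≤ _
    have e1 : ∑ j, (∑ i, (yW i : ℝ) * x i j) * T.u (ψ t) j =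
        ∑ i, (yW i : ℝ) * ∑ j, x i j * T.u (ψ t) j := by
      simp only [Finset.sum_mul, Finset.mul_sum]
      rw [Finset.sum_comm]
      exact Finset.sum_congr rfl fun i _ => Finset.sum_congr rfl fun j _ => by ring
    have e2 : ∑ j, (∑ i, (yW i : ℝ) * x i j) * T.u (ψ t) j - T.D (ψ t) *
        ((∑ i, yW i * T.M (ψ t) i - yM * M' (ψ t) : ℤ) : ℝ) =
        -(y0 : ℝ) + ∑ i, (yW i : ℝ) *
          (∑ j, x i j * T.u (ψ t) j - T.D (ψ t) * T.M (ψ t) i - T.W (ψ t) i) := by
      rw [e1]
      have e3 : ∑ i, (yW i : ℝ) *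
          (∑ j, x i j * T.u (ψ t) j - T.D (ψ t) * T.M (ψ t) i - T.W (ψ t) i) =
          ∑ i, (yW i : ℝ) * ∑ j, x i j * T.u (ψ t) j -
          T.D (ψ t) * ∑ i, (yW i : ℝ) * T.M (ψ t) i -
          ∑ i, (yW i : ℝ) * T.W (ψ t) i := by
        rw [Finset.mul_sum, ← Finset.sum_sub_distrib, ← Finset.sum_sub_distrib]
        exact Finset.sum_congr rfl fun i _ => by ring
      rw [e3]
      push_cast
      linear_combination (hrelR t)
    rw [e2]
    refine (abs_add_le _ _).trans (add_le_add (by rw [abs_neg]) ?_)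
    refine (Finset.abs_sum_le_sum_abs _ _).trans (Finset.sum_le_sum fun i _ => ?_)
    rw [abs_mul]
    exact mul_le_of_le_one_right (abs_nonneg _) (T.hφ (ψ t) i)
  obtain ⟨i0, hi0⟩ : ∃ i, α' i ≠ 0 := by
    by_contra h
    push Not at h
    exact hα'0 (funext h)
  have hyMalg : IsAlgebraic ℚ ((yM : ℝ))⁻¹ := (isAlgebraic_intCast _).inv
  obtain ⟨y', hy', hfr2⟩ := mast (κ := Option (B ⊕ H)) hS x hx
    (fun i => fun o => o.elim 0 (Sum.elim (fun i' => if i' = i then 1 else 0) (fun _ => 0)))
    (fun i l => by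
      rcases l with _ | l | l
      · exact isAlgebraic_zero
      · simp only [Option.elim_some, Sum.elim_inl]
        split_ifs
        · exact isAlgebraic_one
        · exact isAlgebraic_zero
      · exact isAlgebraic_zero)
    (fun l l' => l.elim (l'.elim 1 (fun _ => 0)) (Sum.elim
      (fun i => if i = i0 then l'.elim (-(γ0 - y0 * (yM : ℝ)⁻¹))
        (Sum.elim (fun i' => α0 i' + yW i' * (yM : ℝ)⁻¹) (fun a => yP a * (yM : ℝ)⁻¹))
        else l'.elim 0 (Sum.elim (fun i' => if i' = i then 1 else 0) (fun _ => 0)))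
      (fun a => l'.elim (-γ a) (Sum.elim (α a) (fun a' => if a' = a then -1 else 0)))))
    (fun l l' => by
      rcases l with _ | l | l <;> rcases l' with _ | l' | l' <;> simp only [Option.elim_none,
        Option.elim_some, Sum.elim_inl, Sum.elim_inr]
      · exact isAlgebraic_one
      · exact isAlgebraic_zero
      · exact isAlgebraic_zero
      · split_ifs
        · exact (hγ0.sub ((isAlgebraic_intCast _).mul hyMalg)).neg
        · exact isAlgebraic_zero
      · split_ifs
        · exact (hα0 _).add ((isAlgebraic_intCast _).mul hyMalg)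
        · exact isAlgebraic_one
        · exact isAlgebraic_zero
      · split_ifs
        · exact (isAlgebraic_intCast _).mul hyMalg
        · exact isAlgebraic_zero
      · exact (hγ l).neg
      · exact hα l l'
      · split_ifs
        · exact isAlgebraic_one.neg
        · exact isAlgebraic_zero) (by
      intro v hv
      have h0 : v none = 0 := by
        have := hv none
        rw [Fintype.sum_option] at this
        simpa using this
      have h1 : ∀ i, i ≠ i0 → v (some (Sum.inl i)) = 0 := by
        intro i hi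
        have := hv (some (Sum.inl i))
        rw [Fintype.sum_option, Fintype.sum_sum_type] at this
        simpa [hi] using this
      have h2 : ∀ a, v (some (Sum.inr a)) = α a i0 * v (some (Sum.inl i0)) := by
        intro a
        have h3 := hv (some (Sum.inr a))
        rw [Fintype.sum_option, Fintype.sum_sum_type] at h3
        simp only [Option.elim_some, Option.elim_none, Sum.elim_inl, Sum.elim_inr, h0, mul_zero,
          zero_add, ite_mul, zero_mul, Finset.sum_ite_eq', Finset.mem_univ, if_true] at h3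
        rw [Finset.sum_eq_single i0 (fun i _ hi => by rw [h1 i hi, mul_zero])
          (fun h => absurd (Finset.mem_univ _) h)] at h3
        linarith
      have h4 : v (some (Sum.inl i0)) = 0 := by
        have h3 := hv (some (Sum.inl i0))
        rw [Fintype.sum_option, Fintype.sum_sum_type] at h3
        simp only [Option.elim_some, Option.elim_none, Sum.elim_inl, Sum.elim_inr, if_true, h0,
          mul_zero, zero_add] at h3
        rw [Finset.sum_eq_single i0 (fun i _ hi => by rw [h1 i hi, mul_zero])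
          (fun h => absurd (Finset.mem_univ _) h)] at h3
        simp only [h2] at h3
        have h5 : α' i0 * v (some (Sum.inl i0)) = 0 := by
          rw [← h3]
          simp only [hα', div_eq_mul_inv, add_mul, Finset.sum_mul]
          rw [add_assoc]
          congr 2
          refine Finset.sum_congr rfl fun a _ => ?_
          ring
        exact (mul_eq_zero.1 h5).resolve_left hi0
      funext l
      rcases l with _ | l | l
      · exact h0
      · by_cases hl : l = i0
        · rw [hl]
          exact h4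
        · exact h1 l hl
      · show v (some (Sum.inr l)) = 0
        rw [h2, h4, mul_zero]) C ε (A + 1) 1 T.C0 hε le_rfl (fun t => T.N (ψ t))
    (T.hN.comp hψ.tendsto_atTop) (fun t => T.hN0 (ψ t))
    (fun t => Real.one_le_exp (mul_nonneg T.C0 (by linarith [T.hN0 (ψ t)])))
    (fun t => T.u (ψ t)) (fun t => T.D (ψ t)) (fun t => T.M (ψ t))
    (fun t o => o.elim 1 (Sum.elim (T.W (ψ t)) (P (ψ t)))) (fun _ => false)
    (fun t o => o.elim 1 (Sum.elim (T.W (ψ t)) (P (ψ t))))
    (by intro t l; simp)
    (fun t o => o.elim 1 (Sum.elim (fun i => if i = i0 then E (ψ t) else (T.D (ψ t) : ℝ))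
      (β (ψ t)))) (fun t => T.hu (ψ t)) (fun t => T.hD (ψ t))
    (by
      intro t i
      have h1 := T.hφ (ψ t) i
      rw [Fintype.sum_option, Fintype.sum_sum_type]
      simpa using h1)
    (by
      intro t l
      have hDt := hD1 (ψ t)
      rcases l with _ | l | l
      · simp only [Option.elim_none, Int.cast_one, abs_one]
        nlinarith
      · simp only [Option.elim_some, Sum.elim_inl]
        refine (T.hW (ψ t) l).trans ?_
        nlinarith
      · simp only [Option.elim_some, Sum.elim_inr]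
        exact hPD (ψ t) l)
    (by
      intro t l
      rcases l with _ | l | l
      · simp only [Option.elim_none, Real.log_one, abs_zero]
        exact ⟨one_pos, mul_nonneg T.C0 (by linarith [T.hN0 (ψ t)])⟩
      · simp only [Option.elim_some, Sum.elim_inl]
        split_ifs
        · exact ⟨by linarith [hE1 (ψ t)], T.log1 (ψ t) (hE1 (ψ t))
            ((hED (ψ t)).trans (T.hD (ψ t)).2)⟩
        · exact ⟨by linarith [hD1 (ψ t)], T.log1 (ψ t) (hD1 (ψ t)) (T.hD (ψ t)).2⟩
      · simp only [Option.elim_some, Sum.elim_inr]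
        exact ⟨(hβ (ψ t) l).1, (hβ (ψ t) l).2.2⟩)
    (by
      intro t l
      rw [Fintype.sum_option, Fintype.sum_sum_type]
      rcases l with _ | l | l
      · simp
      · by_cases hl : l = i0
        · subst hl
          simp only [Option.elim_some, Option.elim_none, Sum.elim_inl, Sum.elim_inr, if_true,
            Int.cast_one, mul_one]
          refine le_trans (le_of_eq ?_) (hE (ψ t))
          congr 1
          have e1 : ∑ i, (α0 i + (yW i : ℝ) * (yM : ℝ)⁻¹) * (T.W (ψ t) i : ℝ) =
              ∑ i, α0 i * (T.W (ψ t) i : ℝ) +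
              (∑ i, (yW i : ℝ) * T.W (ψ t) i) * (yM : ℝ)⁻¹ := by
            rw [Finset.sum_mul, ← Finset.sum_add_distrib]
            exact Finset.sum_congr rfl fun i _ => by ring
          have e2 : ∑ a, (yP a : ℝ) * (yM : ℝ)⁻¹ * (P (ψ t) a : ℝ) =
              (∑ a, (yP a : ℝ) * P (ψ t) a) * (yM : ℝ)⁻¹ := by
            rw [Finset.sum_mul]
            exact Finset.sum_congr rfl fun a _ => by ring
          have e3 : ∑ i, (yW i : ℝ) * T.W (ψ t) i = -((yM : ℝ) *
              ((T.D (ψ t) : ℝ) * M' (ψ t))) - y0 - ∑ a, (yP a : ℝ) * P (ψ t) a := by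
            linarith [hrelR t]
          rw [e1, e2, e3]
          field_simp
          ring
        · simpa [hl] using T.hW (ψ t) l
      · simp only [Option.elim_some, Option.elim_none, Sum.elim_inl, Sum.elim_inr, Int.cast_one,
          mul_one, ite_mul, zero_mul, Finset.sum_ite_eq', Finset.mem_univ, if_true]
        refine le_trans (le_of_eq ?_) (hP (ψ t) l)
        congr 1
        ring)
    (by
      intro t
      rw [Fintype.prod_option, Fintype.prod_sum_type]
      simp only [one_pow, one_mul, Option.elim_none, Option.elim_some, Sum.elim_inl, Sum.elim_inr,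
        Bool.false_eq_true, if_false, Finset.prod_const_one, mul_one]
      rw [← Finset.mul_prod_erase univ
        (fun i => if i = i0 then E (ψ t) else (T.D (ψ t) : ℝ)) (Finset.mem_univ i0)]
      simp only [if_true]
      have h1 : ∏ i ∈ univ.erase i0, (if i = i0 then E (ψ t) else (T.D (ψ t) : ℝ)) =
          (T.D (ψ t) : ℝ) ^ (Fintype.card B - 1) := by
        rw [Finset.prod_congr rfl (fun i hi => if_neg (Finset.ne_of_mem_erase hi)),
          Finset.prod_const, Finset.card_erase_of_mem (Finset.mem_univ _), Finset.card_univ]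
      rw [h1]
      have hc : 0 < Fintype.card B := Fintype.card_pos_iff.2 ⟨i0⟩
      calc E (ψ t) * (T.D (ψ t) : ℝ) ^ (Fintype.card B - 1) * (∏ a, β (ψ t) a) *
            Real.exp (ε * T.N (ψ t))
          = (E (ψ t) * (∏ a, β (ψ t) a) * Real.exp (ε * T.N (ψ t))) *
            (T.D (ψ t) : ℝ) ^ (Fintype.card B - 1) := by ring
        _ ≤ T.D (ψ t) * (T.D (ψ t) : ℝ) ^ (Fintype.card B - 1) :=
            mul_le_mul_of_nonneg_right (hsm (ψ t)) (by positivity)
        _ = (T.D (ψ t) : ℝ) ^ (Fintype.card B) := by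
            rw [← pow_succ']
            congr 1
            omega) (T.sub ψ hψ).hG
  refine relP hS hx hε (T.sub ψ hψ) α hα hind' γ hγ (fun t => P (ψ t)) (fun t a => hP1 (ψ t) a)
    (y' none) (fun i => y' (some (Sum.inl i))) (fun a => y' (some (Sum.inr a))) ?_
    (hfr2.mono fun t ht => ?_)
  · by_contra h
    push Not at h
    apply hy'
    funext l
    rcases l with _ | l | l
    · exact h.2.1
    · exact congrFun h.2.2 l
    · exact congrFun h.1 l
  · rw [Fintype.sum_option, Fintype.sum_sum_type] at ht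
    show y' none + (∑ i, y' (some (Sum.inl i)) * T.W (ψ t) i +
      ∑ a, y' (some (Sum.inr a)) * P (ψ t) a) = 0
    simpa using ht

end Pool.Agent.U773.JB
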