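import Mathlib
import Pool.Agent.U773.JB.Rows
import Pool.Agent.U773.DB.Digits

/-! Several blocks of digits at distant places. -/

set_option autoImplicit false

open Finset Filter Topology

namespace Pool.Agent.U773.JB

open Pool.Agent.TH419.WI Pool.Agent.N671.OPN Pool.Agent.U773.SF Pool.Agent.U773.WN
  Pool.Agent.U773.RS Pool.Agent.U773.BD Pool.Agent.U773.DB

/-- no linear combination of powers at distant places is small -/
lemma distant {s : ℕ} (c : Fin s → ℝ) {b : ℕ} (hb : 2 ≤ b) (m : ℕ → ℕ) (n : ℕ → Fin s → ℕ)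
    (hn : ∀ t j, t ≤ n t j) (hgap : ∀ t i j, i < j → n t i + t ≤ n t j) (K : ℝ)
    (h : ∃ᶠ t in atTop, |∑ j, c j * ((b ^ (n t j + m t) : ℕ) : ℝ)| ≤ K * ((b ^ m t : ℕ) : ℝ)) :
    c = 0 := by
  classical
  by_contra hc
  have hne : (Finset.univ.filter fun j => c j ≠ 0).Nonempty := by
    obtain ⟨j, hj⟩ := Function.ne_iff.1 hc
    exact ⟨j, Finset.mem_filter.2 ⟨Finset.mem_univ j, hj⟩⟩
  set J0 := (Finset.univ.filter fun j => c j ≠ 0).max' hne with hJ0
  have hJ0m := Finset.max'_mem _ hne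
  rw [← hJ0] at hJ0m
  have hcJ : c J0 ≠ 0 := (Finset.mem_filter.1 hJ0m).2
  have hmax : ∀ j, c j ≠ 0 → j ≤ J0 := fun j hj =>
    Finset.le_max' _ _ (Finset.mem_filter.2 ⟨Finset.mem_univ j, hj⟩)
  have hpos : 0 < |c J0| := abs_pos.2 hcJ
  obtain ⟨T0, hT0⟩ := exists_nat_gt ((|K| + ∑ j, |c j|) / |c J0|)
  obtain ⟨t, ht, hle⟩ := (Filter.frequently_atTop.1 h) T0
  have hbt : (t : ℝ) ≤ (b : ℝ) ^ t := by
    have := (Nat.lt_pow_self (by omega : 1 < b) : t < b ^ t).le
    exact_mod_cast this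
  have hB0 : (0 : ℝ) < b := by exact_mod_cast (by omega : 0 < b)
  have hB1 : (1 : ℝ) ≤ b := by exact_mod_cast (by omega : 1 ≤ b)
  set T : ℝ := (b : ℝ) ^ t with hT
  have hT0' : 0 < T := by positivity
  set u : Fin s → ℝ := fun j => ((b ^ (n t j + m t) : ℕ) : ℝ) with hu
  have hu0 : ∀ j, 0 < u j := fun j => by
    simp only [hu]
    exact_mod_cast Nat.pos_of_ne_zero (by positivity)
  have h1 : ∀ j, j ≠ J0 → |c j * u j| * T ≤ |c j| * u J0 := by
    intro j hj
    by_cases hcj : c j = 0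
    · simp [hcj]
    · have hlt : j < J0 := lt_of_le_of_ne (hmax j hcj) hj
      have h2 : u j * T ≤ u J0 := by
        simp only [hu, hT]
        push_cast
        rw [← pow_add]
        exact pow_le_pow_right₀ hB1 (by have := hgap t j J0 hlt; omega)
      rw [abs_mul, abs_of_pos (hu0 j), mul_assoc]
      exact mul_le_mul_of_nonneg_left h2 (abs_nonneg _)
  have h3 : ((b ^ m t : ℕ) : ℝ) * T ≤ u J0 := by
    simp only [hu, hT]
    push_cast
    rw [← pow_add]
    exact pow_le_pow_right₀ hB1 (by have := hn t J0; omega)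
  have h4 : |c J0| * u J0 * T ≤ (|K| + ∑ j, |c j|) * u J0 := by
    have e1 : c J0 * u J0 = (∑ j, c j * u j) - ∑ j ∈ Finset.univ.erase J0, c j * u j := by
      rw [← Finset.add_sum_erase _ _ (Finset.mem_univ J0)]
      ring
    have e2 : |c J0| * u J0 = |c J0 * u J0| := by rw [abs_mul, abs_of_pos (hu0 J0)]
    have e3 : |c J0 * u J0| ≤ |∑ j, c j * u j| + ∑ j ∈ Finset.univ.erase J0, |c j * u j| := by
      rw [e1]
      refine (abs_sub _ _).trans (add_le_add le_rfl (Finset.abs_sum_le_sum_abs _ _))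
    have e4 : (∑ j ∈ Finset.univ.erase J0, |c j * u j|) * T ≤ (∑ j, |c j|) * u J0 := by
      rw [Finset.sum_mul, Finset.sum_mul]
      refine (Finset.sum_le_sum fun j hj => h1 j (Finset.ne_of_mem_erase hj)).trans ?_
      exact Finset.sum_le_sum_of_subset_of_nonneg (Finset.erase_subset _ _)
        fun j _ _ => mul_nonneg (abs_nonneg _) (hu0 J0).le
    have e5 : |∑ j, c j * u j| * T ≤ |K| * u J0 := by
      have f1 : |∑ j, c j * u j| ≤ |K| * ((b ^ m t : ℕ) : ℝ) :=
        hle.trans (mul_le_mul_of_nonneg_right (le_abs_self K) (Nat.cast_nonneg _))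
      calc |∑ j, c j * u j| * T ≤ |K| * ((b ^ m t : ℕ) : ℝ) * T :=
            mul_le_mul_of_nonneg_right f1 hT0'.le
        _ = |K| * (((b ^ m t : ℕ) : ℝ) * T) := by ring
        _ ≤ |K| * u J0 := mul_le_mul_of_nonneg_left h3 (abs_nonneg _)
    rw [e2]
    have e6 := mul_le_mul_of_nonneg_right e3 hT0'.le
    rw [add_mul] at e6
    rw [add_mul]
    linarith
  have h5 : |c J0| * T ≤ |K| + ∑ j, |c j| := by
    refine le_of_mul_le_mul_right ?_ (hu0 J0)
    linarith
  have h6 : |K| + ∑ j, |c j| < |c J0| * T := by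
    have f1 : (|K| + ∑ j, |c j|) / |c J0| < T := by
      refine hT0.trans_le (le_trans ?_ hbt)
      exact_mod_cast ht
    rw [div_lt_iff₀ hpos] at f1
    linarith
  linarith

/-- the data: blocks of `m t` digits at the places `n t j` -/
noncomputable def mkBlk {s r : ℕ} {b : ℕ} (hb : 2 ≤ b) (x : Fin r → ℝ)
    (hxi : ∀ (a : ℤ) (c : Fin r → ℤ), (a : ℝ) + ∑ k, (c k : ℝ) * x k = 0 → c = 0)
    (C ε : ℝ) (hε : ε ≤ Real.log b) (m : ℕ → ℕ) (hm : ∀ t, t + 1 ≤ m t) (n : ℕ → Fin s → ℕ)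
    (hn : ∀ t j, t ≤ n t j) (hnC : ∀ t j, (n t j : ℝ) ≤ C * m t)
    (hgap : ∀ t i j, i < j → n t i + t ≤ n t j) :
    Blk (Fin s) (Fin s × Fin r) b.primeFactors (fun p j => if j = p.1 then x p.2 else 0)
      ((|C| + 1) * Real.log b) ε where
  N := fun t => m t
  u := fun t j => b ^ (n t j + m t)
  D := fun t => b ^ m t
  M := fun t p => Classical.choose (blk_spec b (x p.2) (n t p.1) (m t))
  W := fun t p => blk b (x p.2) (n t p.1) (m t)
  hN := tendsto_natCast_atTop_atTop.comp (tendsto_atTop_mono (fun t => by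
      have := hm t
      simp only [id]
      omega) tendsto_id)
  hN0 := fun t => by
    have := hm t
    exact_mod_cast (by omega : 1 ≤ m t)
  hu := fun t j => by
    refine ⟨SU_pow hb _, ?_⟩
    push_cast
    rw [← Real.rpow_natCast, pow_eq_exp hb]
    apply Real.exp_le_exp.2
    push_cast
    have hb1 : (1 : ℝ) < b := by exact_mod_cast hb
    have hlb : 0 < Real.log b := Real.log_pos hb1
    have hm0 : (0 : ℝ) ≤ m t := Nat.cast_nonneg _
    have h1 := (hnC t j).trans (mul_le_mul_of_nonneg_right (le_abs_self C) hm0)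
    nlinarith
  hD := fun t => by
    refine ⟨SU_pow hb _, ?_⟩
    push_cast
    rw [← Real.rpow_natCast, pow_eq_exp hb]
    apply Real.exp_le_exp.2
    have hb1 : (1 : ℝ) < b := by exact_mod_cast hb
    have hlb : 0 < Real.log b := Real.log_pos hb1
    have hm0 : (0 : ℝ) ≤ m t := Nat.cast_nonneg _
    have h1 : 0 ≤ |C| * m t := by positivity
    nlinarith
  hφ := fun t p => by
    obtain ⟨h1, h2⟩ := Classical.choose_spec (blk_spec b (x p.2) (n t p.1) (m t))
    have h3 : ∑ j, (if j = p.1 then x p.2 else 0) * ((b ^ (n t j + m t) : ℕ) : ℝ) =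
        (b : ℝ) ^ (n t p.1 + m t) * x p.2 := by
      rw [Finset.sum_eq_single p.1]
      · simp [mul_comm]
      · intro j _ hj
        simp [hj]
      · intro hj
        exact absurd (Finset.mem_univ _) hj
    rw [h3]
    push_cast
    rw [abs_le]
    constructor <;> linarith
  hW := fun t p => by
    have h1 := blk_nonneg hb (x p.2) (n t p.1) (m t)
    have h2 := blk_lt hb (x p.2) (n t p.1) (m t)
    rw [abs_of_nonneg (by exact_mod_cast h1)]
    have h3 : ((blk b (x p.2) (n t p.1) (m t) : ℤ) : ℝ) < (((b : ℤ) ^ m t : ℤ) : ℝ) :=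
      Int.cast_lt.2 h2
    push_cast at h3 ⊢
    exact h3.le
  hDe := fun t => by
    push_cast
    rw [← Real.rpow_natCast, pow_eq_exp hb]
    apply Real.exp_le_exp.2
    exact mul_le_mul_of_nonneg_right hε (Nat.cast_nonneg _)
  hG := fun r' s' K h => by
    have h1 : ∀ j, ∑ p : Fin s × Fin r, (s' p : ℝ) * (if j = p.1 then x p.2 else 0) =
        ∑ k, (s' (j, k) : ℝ) * x k := by
      intro j
      rw [Fintype.sum_prod_type, Finset.sum_eq_single j]
      · simp
      · intro j' _ hj'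
        refine Finset.sum_eq_zero fun k _ => ?_
        simp [Ne.symm hj']
      · intro hj
        exact absurd (Finset.mem_univ _) hj
    have h2 := distant (fun j => (r' j : ℝ) + ∑ k, (s' (j, k) : ℝ) * x k) hb m n hn hgap K (by
      refine h.mono fun t ht => ?_
      simp only [h1] at ht
      exact ht)
    have h3 : ∀ j, (fun k => s' (j, k)) = 0 := fun j => hxi (r' j) _ (by
      have := congrFun h2 j
      simpa using this)
    have h4 : s' = 0 := by
      funext p
      exact congrFun (h3 p.1) p.2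
    refine ⟨?_, h4⟩
    funext j
    have := congrFun h2 j
    simp only [h4, Pi.zero_apply, Int.cast_zero, zero_mul, Finset.sum_const_zero, add_zero] at this
    simpa using this

/-- forms in blocks of digits modulo `b ^ m` -/
theorem places {s r : ℕ} {b : ℕ} (hb : 2 ≤ b) (x : Fin r → ℝ) (hx : ∀ k, IsAlgebraic ℚ (x k))
    (hxi : ∀ (a : ℤ) (c : Fin r → ℤ), (a : ℝ) + ∑ k, (c k : ℝ) * x k = 0 → c = 0)
    (α : Fin s → Fin r → ℝ) (hα : ∀ j k, IsAlgebraic ℚ (α j k)) (hα0 : α ≠ 0) (γ : ℝ)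
    (hγ : IsAlgebraic ℚ γ) (C δ : ℝ) (hδ : 0 < δ) :
    ∃ U : ℕ, ∀ m : ℕ, U ≤ m → ∀ n : Fin s → ℕ, (∀ j, U ≤ n j ∧ (n j : ℝ) ≤ C * m) →
      (∀ i j, i < j → n i + U ≤ n j) → ∀ M : ℤ,
      (b : ℝ) ^ ((1 - δ) * (m : ℝ)) ≤
        |∑ j, ∑ k, α j k * (blk b (x k) (n j) m : ℝ) - γ - (b : ℝ) ^ m * M| := by
  classical
  obtain ⟨j0, hj0⟩ := Function.ne_iff.1 hα0
  haveI : Nonempty (Fin s) := ⟨j0⟩
  have hb1 : (1 : ℝ) < b := by exact_mod_cast hb
  have hlb : 0 < Real.log b := Real.log_pos hb1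
  set δ' : ℝ := min δ 1 with hδ'
  have hδ'0 : 0 < δ' := lt_min hδ one_pos
  have hδ'1 : δ' ≤ δ := min_le_left _ _
  have hδ'2 : δ' ≤ 1 := min_le_right _ _
  by_contra hcon
  push Not at hcon
  choose m hm n hn hgap M hM using fun t : ℕ => hcon (t + 1)
  set T := mkBlk (s := s) hb x hxi C (δ' * Real.log b)
    (mul_le_of_le_one_left hlb.le hδ'2) m hm n (fun t j => by have := (hn t j).1; omega)
    (fun t j => (hn t j).2) (fun t i j hij => by have := hgap t i j hij; omega) with hT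
  refine formD (T := T) (fun p h => Nat.prime_of_mem_primeFactors h)
    (fun p j => by
      split_ifs
      · exact hx _
      · exact isAlgebraic_zero) (by positivity)
    (fun p => α p.1 p.2) (fun p => hα _ _) (by
      intro h0
      apply hj0
      funext k
      exact congrFun h0 (j0, k)) γ hγ M (fun t => (b : ℝ) ^ ((1 - δ') * (m t : ℝ))) ?_ ?_ ?_
  · intro t
    exact Real.one_le_rpow hb1.le (mul_nonneg (by linarith) (Nat.cast_nonneg _))
  · intro t
    have h1 := (hM t).le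
    refine le_trans (le_of_eq ?_) (h1.trans (Real.rpow_le_rpow_of_exponent_le hb1.le
      (mul_le_mul_of_nonneg_right (by linarith) (Nat.cast_nonneg _))))
    rw [Fintype.sum_prod_type]
    simp only [hT, mkBlk]
    push_cast
    rfl
  · intro t
    simp only [hT, mkBlk]
    push_cast
    rw [← Real.rpow_natCast (b : ℝ) (m t), pow_eq_exp hb, pow_eq_exp hb, ← Real.exp_add]
    apply Real.exp_le_exp.2
    apply le_of_eq
    ring

/-- forms in blocks of digits modulo one -/
theorem nearest {s r h : ℕ} {b : ℕ} (hb : 2 ≤ b) (x : Fin r → ℝ)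
    (hx : ∀ k, IsAlgebraic ℚ (x k))
    (hxi : ∀ (a : ℤ) (c : Fin r → ℤ), (a : ℝ) + ∑ k, (c k : ℝ) * x k = 0 → c = 0)
    (α : Fin h → Fin s → Fin r → ℝ) (hα : ∀ a j k, IsAlgebraic ℚ (α a j k))
    (hind : ∀ c : Fin h → ℤ, c ≠ 0 → ∃ j k, ∀ q : ℤ, ∑ a, (c a : ℝ) * α a j k ≠ q)
    (γ : Fin h → ℝ) (hγ : ∀ a, IsAlgebraic ℚ (γ a)) (C δ : ℝ) (hδ : 0 < δ) :
    ∃ U : ℕ, ∀ m : ℕ, U ≤ m → ∀ n : Fin s → ℕ, (∀ j, U ≤ n j ∧ (n j : ℝ) ≤ C * m) →
      (∀ i j, i < j → n i + U ≤ n j) →
      (b : ℝ) ^ (-(δ * (m : ℝ))) ≤ ∏ a, |∑ j, ∑ k, α a j k * (blk b (x k) (n j) m : ℝ) - γ a -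
        round (∑ j, ∑ k, α a j k * (blk b (x k) (n j) m : ℝ) - γ a)| := by
  classical
  have hb1 : (1 : ℝ) < b := by exact_mod_cast hb
  have hlb : 0 < Real.log b := Real.log_pos hb1
  rcases Nat.eq_zero_or_pos h with hh | hh
  · subst hh
    refine ⟨0, fun m _ n _ _ => ?_⟩
    rw [Finset.univ_eq_empty, Finset.prod_empty]
    exact Real.rpow_le_one_of_one_le_of_nonpos hb1.le (by
      have : 0 ≤ δ * (m : ℝ) := by positivity
      linarith)
  haveI : Nonempty (Fin s) := by
    obtain ⟨j, _⟩ := hind (fun _ => 1) (by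
      intro h0
      have := congrFun h0 ⟨0, hh⟩
      simp at this)
    exact ⟨j⟩
  set δ' : ℝ := min δ 1 with hδ'
  have hδ'0 : 0 < δ' := lt_min hδ one_pos
  have hδ'1 : δ' ≤ δ := min_le_left _ _
  have hδ'2 : δ' ≤ 1 := min_le_right _ _
  by_contra hcon
  push Not at hcon
  choose m hm n hn hgap hM using fun t : ℕ => hcon (t + 1)
  set ε : ℝ := δ' * Real.log b with hε
  have hε0 : 0 < ε := by positivity
  set T := mkBlk (s := s) hb x hxi C ε
    (mul_le_of_le_one_left hlb.le hδ'2) m hm n (fun t j => by have := (hn t j).1; omega)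
    (fun t j => (hn t j).2) (fun t i j hij => by have := hgap t i j hij; omega) with hT
  set L : ℕ → Fin h → ℝ := fun t a =>
    ∑ j, ∑ k, α a j k * (blk b (x k) (n t j) (m t) : ℝ) - γ a with hL
  set ds : ℕ → Fin h → ℝ := fun t a => |L t a - round (L t a)| with hds
  have hds1 : ∀ t a, ds t a ≤ 1 := fun t a => by
    have := abs_sub_round (L t a)
    simp only [hds]
    linarith
  have hds0 : ∀ t a, 0 ≤ ds t a := fun t a => abs_nonneg _
  set e0 : ℕ → ℝ := fun t => Real.exp (-(ε * m t)) with he0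
  have hep : ∀ t, 0 < e0 t := fun t => Real.exp_pos _
  have he1 : ∀ t, e0 t ≤ 1 := fun t => by
    simp only [he0]
    rw [Real.exp_le_one_iff]
    have : 0 ≤ ε * m t := mul_nonneg hε0.le (Nat.cast_nonneg _)
    linarith
  have hprod : ∀ t, ∏ a, ds t a ≤ e0 t := by
    intro t
    refine (hM t).le.trans ?_
    simp only [he0]
    rw [pow_eq_exp hb]
    apply Real.exp_le_exp.2
    have h1 : δ' * m t ≤ δ * m t := mul_le_mul_of_nonneg_right hδ'1 (Nat.cast_nonneg _)
    rw [hε]
    nlinarith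
  refine rows (T := T) (H := Fin h) (fun p h => Nat.prime_of_mem_primeFactors h)
    (fun p j => by
      split_ifs
      · exact hx _
      · exact isAlgebraic_zero) hε0
    (fun a p => α a p.1 p.2) (fun a p => hα _ _ _) (fun c hc => by
      obtain ⟨j, k, hjk⟩ := hind c hc
      exact ⟨(j, k), hjk⟩) γ hγ (fun t a => round (L t a)) (fun t a => max (ds t a) (e0 t))
    ?_ ?_ ?_
  · intro t a
    refine ⟨lt_max_of_lt_right (hep t), max_le (hds1 t a) (he1 t), ?_⟩
    have h1 : 0 < max (ds t a) (e0 t) := lt_max_of_lt_right (hep t)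
    have h2 : Real.log (max (ds t a) (e0 t)) ≤ 0 :=
      Real.log_nonpos h1.le (max_le (hds1 t a) (he1 t))
    rw [abs_of_nonpos h2]
    have h3 : -(ε * m t) ≤ Real.log (max (ds t a) (e0 t)) := by
      rw [Real.le_log_iff_exp_le h1]
      exact le_max_right _ _
    have h4 : ε * m t ≤ (|C| + 1) * Real.log b * m t := by
      refine mul_le_mul_of_nonneg_right ?_ (Nat.cast_nonneg _)
      rw [hε]
      have := abs_nonneg C
      nlinarith
    change -Real.log (max (ds t a) (e0 t)) ≤ (|C| + 1) * Real.log b * (m t : ℝ)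
    linarith
  · intro t a
    refine le_trans (le_of_eq ?_) (le_max_left _ _)
    simp only [hds, hL]
    rw [Fintype.sum_prod_type]
    rfl
  · intro t
    have hN : T.N t = m t := rfl
    rw [hN]
    have h1 : ∏ a, max (ds t a) (e0 t) ≤ e0 t := by
      by_cases hcase : ∀ a, e0 t ≤ ds t a
      · rw [Finset.prod_congr rfl fun a _ => max_eq_left (hcase a)]
        exact hprod t
      · push Not at hcase
        obtain ⟨a0, ha0⟩ := hcase
        rw [← Finset.mul_prod_erase univ (fun a => max (ds t a) (e0 t)) (mem_univ a0)]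
        rw [max_eq_right ha0.le]
        exact mul_le_of_le_one_right (hep t).le
          (Finset.prod_le_one (fun a _ => (lt_max_of_lt_right (hep t)).le)
            (fun a _ => max_le (hds1 t a) (he1 t)))
    refine (mul_le_mul_of_nonneg_right h1 (Real.exp_pos _).le).trans (le_of_eq ?_)
    simp only [he0]
    rw [← Real.exp_add]
    simp

end Pool.Agent.U773.JB
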