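import Mathlib
import Pool.Agent.U773.JB.Comb
import Pool.Agent.U773.JB.DigitsJ

/-! Several blocks of digits at distant places: the joint inequality. -/

set_option autoImplicit false

open Finset Filter Topology

namespace Pool.Agent.U773.JB

open Pool.Agent.TH419.WI Pool.Agent.N671.OPN Pool.Agent.U773.SF Pool.Agent.U773.WN
  Pool.Agent.U773.RS Pool.Agent.U773.BD Pool.Agent.U773.DB

/-- the joint inequality -/
theorem joint {s r h : ℕ} {b : ℕ} (hb : 2 ≤ b) (x : Fin r → ℝ)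
    (hx : ∀ k, IsAlgebraic ℚ (x k))
    (hxi : ∀ (a : ℤ) (c : Fin r → ℤ), (a : ℝ) + ∑ k, (c k : ℝ) * x k = 0 → c = 0)
    (α0 : Fin s → Fin r → ℝ) (hα0 : ∀ j k, IsAlgebraic ℚ (α0 j k)) (hα00 : α0 ≠ 0)
    (γ0 : ℝ) (hγ0 : IsAlgebraic ℚ γ0)
    (α : Fin h → Fin s → Fin r → ℝ) (hα : ∀ a j k, IsAlgebraic ℚ (α a j k))
    (hind : ∀ (c0 : ℤ) (c : Fin h → ℤ), c ≠ 0 →
      ∃ j k, ∀ q : ℤ, (c0 : ℝ) * α0 j k + ∑ a, (c a : ℝ) * α a j k ≠ q)
    (γ : Fin h → ℝ) (hγ : ∀ a, IsAlgebraic ℚ (γ a)) (C δ : ℝ) (hδ : 0 < δ) :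
    ∃ U : ℕ, ∀ m : ℕ, U ≤ m → ∀ n : Fin s → ℕ, (∀ j, U ≤ n j ∧ (n j : ℝ) ≤ C * m) →
      (∀ i j, i < j → n i + U ≤ n j) → ∀ M : ℤ,
      (b : ℝ) ^ ((1 - δ) * (m : ℝ)) ≤
        (1 + |∑ j, ∑ k, α0 j k * (blk b (x k) (n j) m : ℝ) - γ0 - (b : ℝ) ^ m * M|) *
        ∏ a, |∑ j, ∑ k, α a j k * (blk b (x k) (n j) m : ℝ) - γ a -
          round (∑ j, ∑ k, α a j k * (blk b (x k) (n j) m : ℝ) - γ a)| := by
  classical
  have hb1 : (1 : ℝ) < b := by exact_mod_cast hb
  have hlb : 0 < Real.log b := Real.log_pos hb1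
  obtain ⟨j0, hj0⟩ := Function.ne_iff.1 hα00
  have : Nonempty (Fin s) := ⟨j0⟩
  set δ' : ℝ := min δ 1 with hδ'
  have hδ'0 : 0 < δ' := lt_min hδ one_pos
  have hδ'1 : δ' ≤ δ := min_le_left _ _
  have hδ'2 : δ' ≤ 1 := min_le_right _ _
  by_contra hcon
  push Not at hcon
  choose m hm n hn hgap M0 hM using fun t : ℕ => hcon (t + 1)
  set ε : ℝ := δ' * Real.log b with hε
  have hε0 : 0 < ε := by positivity
  set T := mkBlk (s := s) hb x hxi C ε
    (mul_le_of_le_one_left hlb.le hδ'2) m hm n (fun t j => by have := (hn t j).1; omega)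
    (fun t j => (hn t j).2) (fun t i j hij => by have := hgap t i j hij; omega) with hT
  have hTD : ∀ t, (T.D t : ℝ) = (b : ℝ) ^ m t := fun t => by
    simp only [hT, mkBlk]
    push_cast
    rfl
  have hTN : ∀ t, T.N t = m t := fun t => rfl
  have hD2 : ∀ t, (2 : ℝ) ≤ T.D t := fun t => by
    rw [hTD]
    have h1 : (1 : ℕ) ≤ m t := by have := hm t; omega
    have h2 : (b : ℝ) ^ 1 ≤ (b : ℝ) ^ m t := pow_le_pow_right₀ hb1.le h1
    rw [pow_one] at h2
    have h3 : (2 : ℝ) ≤ b := by exact_mod_cast hb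
    linarith
  set G : ℕ → ℝ := fun t => ∑ j, ∑ k, α0 j k * (blk b (x k) (n t j) (m t) : ℝ) - γ0 with hG
  set M' : ℕ → ℤ := fun t => round (G t / T.D t) with hM'
  set E : ℕ → ℝ := fun t => 1 + |G t - T.D t * M' t| with hE
  have hDE : ∀ t (z : ℤ), |G t - T.D t * z| = T.D t * |G t / T.D t - z| := by
    intro t z
    have h0 : (0 : ℝ) < T.D t := by linarith [hD2 t]
    nth_rewrite 2 [← abs_of_pos h0]
    rw [← abs_mul]
    congr 1
    field_simp
  have hE1 : ∀ t, 1 ≤ E t := fun t => by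
    simp only [hE]
    linarith [abs_nonneg (G t - T.D t * M' t)]
  have hED : ∀ t, E t ≤ T.D t := fun t => by
    simp only [hE]
    rw [hDE]
    have h1 : |G t / T.D t - M' t| ≤ 1 / 2 := abs_sub_round _
    have h2 := hD2 t
    nlinarith
  have hEM : ∀ t, E t ≤ 1 + |G t - (b : ℝ) ^ m t * M0 t| := fun t => by
    simp only [hE]
    rw [← hTD, hDE, hDE]
    have h1 : |G t / T.D t - M' t| ≤ |G t / T.D t - M0 t| := round_le _ _
    have := mul_le_mul_of_nonneg_left h1 (by linarith [hD2 t] : (0 : ℝ) ≤ T.D t)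
    linarith
  set L : ℕ → Fin h → ℝ := fun t a =>
    ∑ j, ∑ k, α a j k * (blk b (x k) (n t j) (m t) : ℝ) - γ a with hL
  set ds : ℕ → Fin h → ℝ := fun t a => |L t a - round (L t a)| with hds
  have hds1 : ∀ t a, ds t a ≤ 1 := fun t a => by
    have := abs_sub_round (L t a)
    simp only [hds]
    linarith
  have hds0 : ∀ t a, 0 ≤ ds t a := fun t a => abs_nonneg _
  set e0 : ℕ → ℝ := fun t => Real.exp (-(ε * m t)) with he0
  have hep : ∀ t, 0 < e0 t := fun t => Real.exp_pos _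
  have he1 : ∀ t, e0 t ≤ 1 := fun t => by
    simp only [he0]
    rw [Real.exp_le_one_iff]
    have : 0 ≤ ε * m t := mul_nonneg hε0.le (Nat.cast_nonneg _)
    linarith
  have hee : ∀ t, e0 t * Real.exp (ε * m t) = 1 := fun t => by
    simp only [he0]
    rw [← Real.exp_add]
    simp
  have hprod : ∀ t, E t * ∏ a, ds t a ≤ T.D t * e0 t := by
    intro t
    have h1 : E t * ∏ a, ds t a ≤ (1 + |G t - (b : ℝ) ^ m t * M0 t|) * ∏ a, ds t a :=
      mul_le_mul_of_nonneg_right (hEM t) (Finset.prod_nonneg fun a _ => hds0 t a)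
    refine h1.trans ((hM t).le.trans ?_)
    rw [hTD, ← Real.rpow_natCast (b : ℝ) (m t)]
    simp only [he0]
    rw [pow_eq_exp hb, pow_eq_exp hb, ← Real.exp_add]
    apply Real.exp_le_exp.2
    have h1 : δ' * m t ≤ δ * m t := mul_le_mul_of_nonneg_right hδ'1 (Nat.cast_nonneg _)
    rw [hε]
    nlinarith
  refine comb (T := T) (H := Fin h) (fun p h => Nat.prime_of_mem_primeFactors h)
    (fun p j => by
      split_ifs
      · exact hx _
      · exact isAlgebraic_zero) hε0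
    (fun p => α0 p.1 p.2) (fun p => hα0 _ _) (by
      intro h0
      apply hj0
      funext k
      exact congrFun h0 (j0, k)) γ0 hγ0
    (fun a p => α a p.1 p.2) (fun a p => hα _ _ _) (fun c0 c hc => by
      obtain ⟨j, k, hjk⟩ := hind c0 c hc
      exact ⟨(j, k), hjk⟩) γ hγ M' E hE1 hED ?_ (fun t a => round (L t a))
    (fun t a => max (ds t a) (e0 t)) ?_ ?_ ?_
  · intro t
    refine le_trans (le_of_eq ?_) (by linarith : |G t - T.D t * M' t| ≤ E t)
    simp only [hG]
    rw [Fintype.sum_prod_type]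
    rfl
  · intro t a
    refine ⟨lt_max_of_lt_right (hep t), max_le (hds1 t a) (he1 t), ?_⟩
    have h1 : 0 < max (ds t a) (e0 t) := lt_max_of_lt_right (hep t)
    have h2 : Real.log (max (ds t a) (e0 t)) ≤ 0 :=
      Real.log_nonpos h1.le (max_le (hds1 t a) (he1 t))
    rw [abs_of_nonpos h2]
    have h3 : -(ε * m t) ≤ Real.log (max (ds t a) (e0 t)) := by
      rw [Real.le_log_iff_exp_le h1]
      exact le_max_right _ _
    have h4 : ε * m t ≤ (|C| + 1) * Real.log b * m t := by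
      refine mul_le_mul_of_nonneg_right ?_ (Nat.cast_nonneg _)
      rw [hε]
      have := abs_nonneg C
      nlinarith
    change -Real.log (max (ds t a) (e0 t)) ≤ (|C| + 1) * Real.log b * (m t : ℝ)
    linarith
  · intro t a
    refine le_trans (le_of_eq ?_) (le_max_left _ _)
    simp only [hds, hL]
    rw [Fintype.sum_prod_type]
    rfl
  · intro t
    rw [hTN]
    have h1 : E t * ∏ a, max (ds t a) (e0 t) ≤ T.D t * e0 t := by
      by_cases hcase : ∀ a, e0 t ≤ ds t a
      · rw [Finset.prod_congr rfl fun a _ => max_eq_left (hcase a)]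
        exact hprod t
      · push Not at hcase
        obtain ⟨a0, ha0⟩ := hcase
        rw [← Finset.mul_prod_erase univ (fun a => max (ds t a) (e0 t)) (mem_univ a0)]
        rw [max_eq_right ha0.le]
        have h2 : e0 t * ∏ a ∈ univ.erase a0, max (ds t a) (e0 t) ≤ e0 t :=
          mul_le_of_le_one_right (hep t).le
          (Finset.prod_le_one (fun a _ => (lt_max_of_lt_right (hep t)).le)
            (fun a _ => max_le (hds1 t a) (he1 t)))
        exact mul_le_mul (hED t) h2 (mul_nonneg (hep t).le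
          (Finset.prod_nonneg fun a _ => (lt_max_of_lt_right (hep t)).le))
          (by linarith [hD2 t])
    calc E t * (∏ a, max (ds t a) (e0 t)) * Real.exp (ε * m t)
        ≤ T.D t * e0 t * Real.exp (ε * m t) :=
          mul_le_mul_of_nonneg_right h1 (Real.exp_pos _).le
      _ = T.D t := by rw [mul_assoc, hee, mul_one]

end Pool.Agent.U773.JB
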